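import Mathlib

/-! Binomial and factorial estimates for the exact-weight construction. -/

namespace Pool.Agent.H95.EW

/-- `16^m ≤ 4 m * C(2m,m)^2` for `m ≥ 1`. -/
theorem central_sq (m : ℕ) (hm : 1 ≤ m) : 16 ^ m ≤ 4 * m * (Nat.centralBinom m) ^ 2 := by
  induction m, hm using Nat.le_induction with
  | base => norm_num [Nat.centralBinom, Nat.choose]
  | succ m hm ih =>
    have h1 := Nat.succ_mul_centralBinom_succ m
    -- (m+1) * cb (m+1) = 2 * (2m+1) * cb m
    have h2 : (m + 1) ^ 2 * (Nat.centralBinom (m + 1)) ^ 2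
        = 4 * (2 * m + 1) ^ 2 * (Nat.centralBinom m) ^ 2 := by
      calc (m + 1) ^ 2 * (Nat.centralBinom (m + 1)) ^ 2
          = ((m + 1) * Nat.centralBinom (m + 1)) ^ 2 := by ring
        _ = (2 * (2 * m + 1) * Nat.centralBinom m) ^ 2 := by rw [h1]
        _ = _ := by ring
    have hpos : 0 < m * (m + 1) := by positivity
    apply Nat.le_of_mul_le_mul_left _ hpos
    calc m * (m + 1) * 16 ^ (m + 1) = 16 * m * (m + 1) * 16 ^ m := by ring
      _ ≤ 16 * m * (m + 1) * (4 * m * (Nat.centralBinom m) ^ 2) := Nat.mul_le_mul_left _ ih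
      _ = 4 * m * (4 * m * (4 * (m + 1)) * (Nat.centralBinom m) ^ 2) := by ring
      _ ≤ 4 * m * (4 * (2 * m + 1) ^ 2 * (Nat.centralBinom m) ^ 2) := by
          apply Nat.mul_le_mul_left
          apply Nat.mul_le_mul_right
          nlinarith
      _ = 4 * m * ((m + 1) ^ 2 * (Nat.centralBinom (m + 1)) ^ 2) := by rw [h2]
      _ = m * (m + 1) * (4 * (m + 1) * (Nat.centralBinom (m + 1)) ^ 2) := by ring

/-- going down from the centre. -/
theorem edge_down (c j : ℕ) (hj : j ≤ c) :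
    (c : ℤ) * ((2 * c).choose (c - j)) ≥ ((c : ℤ) - j ^ 2) * (2 * c).choose c := by
  induction j with
  | zero => simp
  | succ j ih =>
    have hj' : j ≤ c := by omega
    have ih := ih hj'
    obtain ⟨i, rfl⟩ : ∃ i, c = i + j + 1 := ⟨c - j - 1, by omega⟩
    have e1 : i + j + 1 - (j + 1) = i := by omega
    have e2 : i + j + 1 - j = i + 1 := by omega
    rw [e1]
    rw [e2] at ih
    -- C(2c, i+1) * (i+1) = C(2c,i) * (2c - i)
    have hr : (2 * (i + j + 1)).choose (i + 1) * (i + 1)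
        = (2 * (i + j + 1)).choose i * (i + 2 * j + 2) := by
      have := Nat.choose_succ_right_eq (2 * (i + j + 1)) i
      rw [this]; congr 1; omega
    have hr' : ((2 * (i + j + 1)).choose (i + 1) : ℤ) * (i + 1)
        = ((2 * (i + j + 1)).choose i : ℤ) * (i + 2 * j + 2) := by exact_mod_cast hr
    set A : ℤ := ((2 * (i + j + 1)).choose (i + 1) : ℤ) with hA
    set D : ℤ := ((2 * (i + j + 1)).choose i : ℤ) with hD
    set K : ℤ := ((2 * (i + j + 1)).choose (i + j + 1) : ℤ) with hK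
    have hK0 : 0 ≤ K := by positivity
    have hA0 : 0 ≤ A := by positivity
    push_cast at ih ⊢
    by_cases hneg : ((i : ℤ) + j + 1) - (j + 1) ^ 2 ≤ 0
    · have : (((i : ℤ) + j + 1) - (j + 1) ^ 2) * K ≤ 0 := mul_nonpos_of_nonpos_of_nonneg hneg hK0
      have : 0 ≤ ((i : ℤ) + j + 1) * D := by positivity
      linarith
    · push Not at hneg
      have hpos : (0 : ℤ) < i + 2 * j + 2 := by positivity
      apply le_of_mul_le_mul_left _ hpos
      have h3 : (i + 2 * j + 2 : ℤ) * (((i : ℤ) + j + 1) * D)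
          = (i + 1) * (((i : ℤ) + j + 1) * A) := by linear_combination (-(i : ℤ) - j - 1) * hr'
      rw [h3]
      have h4 : (i + 1 : ℤ) * (((i : ℤ) + j + 1 - j ^ 2) * K) ≤ (i + 1) * (((i : ℤ) + j + 1) * A) := by
        apply mul_le_mul_of_nonneg_left _ (by positivity)
        exact ih
      refine le_trans ?_ h4
      have h5 : (i + 2 * j + 2 : ℤ) * ((i : ℤ) + j + 1 - (j + 1) ^ 2) ≤ (i + 1) * ((i : ℤ) + j + 1 - j ^ 2) := by
        nlinarith [sq_nonneg (j : ℤ), mul_nonneg (Int.natCast_nonneg i) (Int.natCast_nonneg j)]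
      calc (i + 2 * j + 2 : ℤ) * (((i : ℤ) + j + 1 - (j + 1) ^ 2) * K)
          = ((i + 2 * j + 2 : ℤ) * ((i : ℤ) + j + 1 - (j + 1) ^ 2)) * K := by ring
        _ ≤ ((i + 1) * ((i : ℤ) + j + 1 - j ^ 2)) * K := mul_le_mul_of_nonneg_right h5 hK0
        _ = _ := by ring

/-- the window binomials: with `c = 2p(p+1)` and `q = 2p+1`, every `j` within `p` of `c` has
`2^(2c) ≤ 3 q C(2c,j)`. -/
theorem window_down (p j : ℕ) (hp : 1 ≤ p) (hj : j ≤ p) :
    2 ^ (4 * p * (p + 1)) ≤ 3 * (2 * p + 1) * (4 * p * (p + 1)).choose (2 * p * (p + 1) - j) := by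
  set c := 2 * p * (p + 1) with hc
  have e : 4 * p * (p + 1) = 2 * c := by rw [hc]; ring
  rw [e]
  have hjc : j ≤ c := by rw [hc]; nlinarith
  have h1 := edge_down c j hjc
  have hc1 : 1 ≤ c := by rw [hc]; nlinarith
  have h2 := central_sq c hc1
  set D := (2 * c).choose (c - j) with hD
  have hcb : Nat.centralBinom c = (2 * c).choose c := rfl
  rw [hcb] at h2
  set K := (2 * c).choose c with hK
  -- K ≤ 2 D
  have h3 : K ≤ 2 * D := by
    have hj2 : (2 * (j : ℤ) ^ 2) ≤ c := by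
      have : j ^ 2 ≤ p ^ 2 := Nat.pow_le_pow_left hj 2
      have h' : 2 * j ^ 2 ≤ c := by rw [hc]; nlinarith
      exact_mod_cast h'
    have hcz : (0 : ℤ) < c := by exact_mod_cast hc1
    have hK0 : (0 : ℤ) ≤ K := by positivity
    have : (c : ℤ) * K ≤ c * (2 * D) := by nlinarith
    have := le_of_mul_le_mul_left this hcz
    exact_mod_cast this
  -- squares
  have h4 : (2 ^ (2 * c)) ^ 2 ≤ (3 * (2 * p + 1) * D) ^ 2 := by
    calc (2 ^ (2 * c)) ^ 2 = 16 ^ c := by
          rw [← pow_mul, show 2 * c * 2 = 4 * c by ring, pow_mul]; norm_num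
      _ ≤ 4 * c * K ^ 2 := h2
      _ ≤ 4 * c * (2 * D) ^ 2 := Nat.mul_le_mul_left _ (Nat.pow_le_pow_left h3 2)
      _ = (16 * c) * D ^ 2 := by ring
      _ ≤ (9 * (2 * p + 1) ^ 2) * D ^ 2 := by
          apply Nat.mul_le_mul_right
          rw [hc]; nlinarith
      _ = _ := by ring
  exact (Nat.pow_le_pow_iff_left (by norm_num)).1 h4

theorem window (p j : ℕ) (hp : 1 ≤ p) (h1 : 2 * p * (p + 1) - p ≤ j) (h2 : j ≤ 2 * p * (p + 1) + p) :
    2 ^ (4 * p * (p + 1)) ≤ 3 * (2 * p + 1) * (4 * p * (p + 1)).choose j := by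
  by_cases h : j ≤ 2 * p * (p + 1)
  · have := window_down p (2 * p * (p + 1) - j) hp (by omega)
    rwa [show 2 * p * (p + 1) - (2 * p * (p + 1) - j) = j by omega] at this
  · push Not at h
    have hpp : p ≤ 2 * p * (p + 1) := by nlinarith
    have h3 := window_down p (j - 2 * p * (p + 1)) hp (by omega)
    have e : (4 * p * (p + 1)).choose j
        = (4 * p * (p + 1)).choose (2 * p * (p + 1) - (j - 2 * p * (p + 1))) := by
      have hle : j ≤ 4 * p * (p + 1) := by
        have : 4 * p * (p + 1) = 2 * p * (p + 1) + 2 * p * (p + 1) := by ring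
        omega
      rw [← Nat.choose_symm hle]
      congr 1
      have : 4 * p * (p + 1) = 2 * p * (p + 1) + 2 * p * (p + 1) := by ring
      omega
    rw [e]; exact h3

/-- `m^m ≤ 3^m m!`. -/
theorem pow_le_three_pow_factorial (m : ℕ) : m ^ m ≤ 3 ^ m * m.factorial := by
  have h := Real.pow_div_factorial_le_exp (x := (m : ℝ)) (by positivity) m
  have h2 : Real.exp m ≤ 3 ^ m := by
    have : Real.exp (m : ℝ) = Real.exp 1 ^ m := by rw [← Real.exp_nat_mul]; simp
    rw [this]
    exact pow_le_pow_left₀ (Real.exp_pos 1).le (by have := Real.exp_one_lt_d9; linarith) m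
  have hf : (0 : ℝ) < m.factorial := by exact_mod_cast m.factorial_pos
  have h3 : (m : ℝ) ^ m ≤ 3 ^ m * m.factorial := by
    rw [div_le_iff₀ hf] at h
    exact h.trans (mul_le_mul_of_nonneg_right h2 hf.le)
  exact_mod_cast h3

end Pool.Agent.H95.EW
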