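import Mathlib
import Pool.Agent.H95.EW.Est

/-! Counting in one group of `m` blocks of `4p(p+1)` bits, where `m^t = 2p+1`. -/

namespace Pool.Agent.H95.EW

open Finset

/-- Hamming weight. -/
def wt {ι : Type*} [Fintype ι] (x : ι → Bool) : ℕ := (univ.filter (fun i => x i = true)).card

/-- `u, v` lie in the window `[p(2p+1), p(2p+1) + m^t)` and all `t` base-`m` digits of their offsets
differ. -/
def Good (m t p u v : ℕ) : Prop :=
  (p * (2 * p + 1) ≤ u ∧ u < p * (2 * p + 1) + m ^ t) ∧
  (p * (2 * p + 1) ≤ v ∧ v < p * (2 * p + 1) + m ^ t) ∧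
  ∀ s < t, (u - p * (2 * p + 1)) / m ^ s % m ≠ (v - p * (2 * p + 1)) / m ^ s % m

theorem digits_sum (m t u : ℕ) : ∑ s ∈ range t, (u / m ^ s % m) * m ^ s = u % m ^ t := by
  induction t with
  | zero => simp [Nat.mod_one]
  | succ t ih =>
    rw [sum_range_succ, ih, Nat.mod_pow_succ]
    ring

theorem geom_pred (m t : ℕ) (hm : 1 ≤ m) : (∑ s ∈ range t, m ^ s) * (m - 1) + 1 = m ^ t := by
  induction t with
  | zero => simp
  | succ t ih =>
    rw [sum_range_succ, add_mul]
    obtain ⟨a, rfl⟩ : ∃ a, m = a + 1 := ⟨m - 1, by omega⟩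
    simp only [Nat.add_sub_cancel] at ih ⊢
    rw [pow_succ]
    nlinarith [ih]

/-- Exactness: if all pairs are good then the total weight is `m * 2p(p+1)`. -/
theorem exact_of_good (m t p : ℕ) (hm : 2 ≤ m) (hq : m ^ t = 2 * p + 1) (w : Fin m → ℕ)
    (h : ∀ i j, i ≠ j → Good m t p (w i) (w j)) : ∑ i, w i = m * (2 * p * (p + 1)) := by
  set a := p * (2 * p + 1) with ha
  have hwin : ∀ i, a ≤ w i ∧ w i < a + m ^ t := by
    intro i
    obtain ⟨j, hj⟩ : ∃ j : Fin m, i ≠ j := by
      by_contra hcon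
      push Not at hcon
      have h0 := hcon ⟨0, by omega⟩
      have h1 := hcon ⟨1, by omega⟩
      have := h0.symm.trans h1
      simp [Fin.ext_iff] at this
    exact (h i j hj).1
  have hsplit : ∀ i, w i = a + ∑ s ∈ range t, ((w i - a) / m ^ s % m) * m ^ s := by
    intro i
    have h2 := hwin i
    rw [digits_sum, Nat.mod_eq_of_lt (by omega)]
    omega
  have hdig : ∀ s ∈ range t, ∑ i : Fin m, ((w i - a) / m ^ s % m) = m * (m - 1) / 2 := by
    intro s hs
    let f : Fin m → Fin m := fun i => ⟨(w i - a) / m ^ s % m, Nat.mod_lt _ (by omega)⟩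
    have hf : Function.Injective f := by
      intro i j hij
      by_contra hne
      have := (h i j hne).2.2 s (mem_range.1 hs)
      apply this
      simpa [f, Fin.ext_iff] using hij
    have hb : Function.Bijective f := Finite.injective_iff_bijective.1 hf
    have h3 : ∑ i : Fin m, ((w i - a) / m ^ s % m) = ∑ i : Fin m, ((f i : Fin m) : ℕ) := rfl
    rw [h3, hb.sum_comp (fun i : Fin m => (i : ℕ)), Fin.sum_univ_eq_sum_range (fun i => i) m, sum_range_id]
  have h4 : ∑ i, w i = m * a + ∑ s ∈ range t, (m * (m - 1) / 2) * m ^ s := by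
    calc ∑ i, w i = ∑ i : Fin m, (a + ∑ s ∈ range t, ((w i - a) / m ^ s % m) * m ^ s) :=
          Finset.sum_congr rfl (fun i _ => hsplit i)
      _ = m * a + ∑ i : Fin m, ∑ s ∈ range t, ((w i - a) / m ^ s % m) * m ^ s := by
          rw [Finset.sum_add_distrib]; simp
      _ = m * a + ∑ s ∈ range t, ∑ i : Fin m, ((w i - a) / m ^ s % m) * m ^ s := by
          rw [Finset.sum_comm]
      _ = _ := by
          congr 1
          apply Finset.sum_congr rfl
          intro s hs
          rw [← Finset.sum_mul, hdig s hs]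
  rw [h4, ← Finset.mul_sum]
  have h5 := geom_pred m t (by omega)
  rw [hq] at h5
  -- (∑ m^s) (m-1) = 2p
  have h6 : (∑ s ∈ range t, m ^ s) * (m - 1) = 2 * p := by omega
  have h7 : 2 * (m * (m - 1) / 2) = m * (m - 1) :=
    Nat.mul_div_cancel' (Nat.even_mul_pred_self m).two_dvd
  have h8 : 2 * (m * (m - 1) / 2 * ∑ s ∈ range t, m ^ s) = 2 * (m * p) := by
    calc 2 * (m * (m - 1) / 2 * ∑ s ∈ range t, m ^ s)
        = (2 * (m * (m - 1) / 2)) * ∑ s ∈ range t, m ^ s := by ring
      _ = m * (m - 1) * ∑ s ∈ range t, m ^ s := by rw [h7]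
      _ = m * ((∑ s ∈ range t, m ^ s) * (m - 1)) := by ring
      _ = 2 * (m * p) := by rw [h6]; ring
  have h9 : m * (m - 1) / 2 * ∑ s ∈ range t, m ^ s = m * p := by omega
  rw [h9, ha]; ring

theorem card_wt (B w : ℕ) :
    (univ.filter (fun x : Fin B → Bool => wt x = w)).card = B.choose w := by
  have : (univ.filter (fun x : Fin B → Bool => wt x = w)).card = (powersetCard w (univ : Finset (Fin B))).card := by
    apply Finset.card_nbij' (fun x => univ.filter (fun i => x i = true)) (fun s i => decide (i ∈ s))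
    · intro x hx
      have hx := (mem_filter.1 (mem_coe.1 hx)).2
      exact mem_coe.2 (mem_powersetCard.2 ⟨subset_univ _, hx⟩)
    · intro s hs
      have := (mem_powersetCard.1 (mem_coe.1 hs)).2
      apply mem_coe.2
      apply mem_filter.2
      refine ⟨mem_univ _, ?_⟩
      simpa [wt] using this
    · intro x _
      funext i; simp
    · intro s _
      ext i; simp
  rw [this, card_powersetCard, card_univ, Fintype.card_fin]

/-- the good configurations of one group. -/
noncomputable def goodSet (m t p : ℕ) : Finset (Fin m → Fin (4 * p * (p + 1)) → Bool) := by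
  classical
  exact univ.filter (fun X => ∀ i j, i ≠ j → Good m t p (wt (X i)) (wt (X j)))

theorem mem_goodSet {m t p : ℕ} {X : Fin m → Fin (4 * p * (p + 1)) → Bool} :
    X ∈ goodSet m t p ↔ ∀ i j, i ≠ j → Good m t p (wt (X i)) (wt (X j)) := by
  classical
  simp [goodSet]

/-- weight tuple given by `t` permutations. -/
def wp (m t p : ℕ) (π : Fin t → Equiv.Perm (Fin m)) (i : Fin m) : ℕ :=
  p * (2 * p + 1) + (finFunctionFinEquiv (fun s => π s i) : Fin (m ^ t))

theorem wp_sub (m t p : ℕ) (π : Fin t → Equiv.Perm (Fin m)) (i : Fin m) :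
    wp m t p π i - p * (2 * p + 1) = (finFunctionFinEquiv (fun s => π s i) : Fin (m ^ t)) := by
  simp [wp]

theorem wp_digit (m t p : ℕ) (π : Fin t → Equiv.Perm (Fin m)) (i : Fin m) (s : Fin t) :
    (wp m t p π i - p * (2 * p + 1)) / m ^ (s : ℕ) % m = (π s i : ℕ) := by
  rw [wp_sub]
  have h := congrFun (finFunctionFinEquiv.symm_apply_apply (fun s => π s i)) s
  exact congrArg (fun z : Fin m => (z : ℕ)) h

theorem wp_lt (m t p : ℕ) (π : Fin t → Equiv.Perm (Fin m)) (i : Fin m) :
    wp m t p π i < p * (2 * p + 1) + m ^ t :=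
  Nat.add_lt_add_left (Fin.is_lt _) _

theorem wp_ge (m t p : ℕ) (π : Fin t → Equiv.Perm (Fin m)) (i : Fin m) :
    p * (2 * p + 1) ≤ wp m t p π i := Nat.le_add_right _ _

theorem wp_good (m t p : ℕ) (π : Fin t → Equiv.Perm (Fin m)) (i j : Fin m) (hij : i ≠ j) :
    Good m t p (wp m t p π i) (wp m t p π j) := by
  refine ⟨⟨wp_ge _ _ _ _ _, wp_lt _ _ _ _ _⟩, ⟨wp_ge _ _ _ _ _, wp_lt _ _ _ _ _⟩, ?_⟩
  intro s hs
  rw [wp_digit m t p π i ⟨s, hs⟩, wp_digit m t p π j ⟨s, hs⟩]
  intro h
  exact hij ((π ⟨s, hs⟩).injective (Fin.ext h))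

theorem wp_inj (m t p : ℕ) : Function.Injective (wp m t p) := by
  intro π π' h
  funext s
  ext i
  have h1 := wp_digit m t p π i s
  have h2 := wp_digit m t p π' i s
  rw [← h1, ← h2, h]

theorem card_goodSet (m t p : ℕ) (hp : 1 ≤ p) (hq : m ^ t = 2 * p + 1) :
    2 ^ (4 * p * (p + 1) * m) ≤ (goodSet m t p).card * 3 ^ ((t + 1) * m) := by
  classical
  set B := 4 * p * (p + 1) with hB
  let fib : (Fin t → Equiv.Perm (Fin m)) → Finset (Fin m → Fin B → Bool) := fun π =>
    Fintype.piFinset (fun i => univ.filter (fun x : Fin B → Bool => wt x = wp m t p π i))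
  have hfib : ∀ π X, X ∈ fib π ↔ ∀ i, wt (X i) = wp m t p π i := by
    intro π X; simp [fib]
  have hsub : univ.biUnion fib ⊆ goodSet m t p := by
    intro X hX
    rw [mem_biUnion] at hX
    obtain ⟨π, -, hX⟩ := hX
    rw [hfib] at hX
    rw [mem_goodSet]
    intro i j hij
    rw [hX i, hX j]
    exact wp_good m t p π i j hij
  have hdisj : ((univ : Finset (Fin t → Equiv.Perm (Fin m))) : Set _).PairwiseDisjoint fib := by
    intro π _ π' _ hne
    rw [Function.onFun, Finset.disjoint_left]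
    intro X hX hX'
    rw [hfib] at hX hX'
    apply hne
    apply wp_inj m t p
    funext i
    rw [← hX i, ← hX' i]
  have hcard : ∑ π : Fin t → Equiv.Perm (Fin m), (fib π).card ≤ (goodSet m t p).card := by
    rw [← card_biUnion hdisj]
    exact card_le_card hsub
  have hone : ∀ π, (2 ^ B) ^ m ≤ (3 * m ^ t) ^ m * (fib π).card := by
    intro π
    have hc : (fib π).card = ∏ i : Fin m, B.choose (wp m t p π i) := by
      simp only [fib, Fintype.card_piFinset, card_wt]
    rw [hc]
    have : (3 * m ^ t) ^ m = ∏ _i : Fin m, (3 * m ^ t) := by simp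
    rw [this, ← prod_mul_distrib]
    have : (2 ^ B) ^ m = ∏ _i : Fin m, (2 ^ B) := by simp
    rw [this]
    apply prod_le_prod
    · intros; positivity
    · intro i _
      have hlt := wp_lt m t p π i
      have hge := wp_ge m t p π i
      rw [hq] at hlt
      rw [hq]
      have : 2 * p * (p + 1) = p * (2 * p + 1) + p := by ring
      apply window p _ hp
      · omega
      · omega
  have hsum : (m.factorial) ^ t * (2 ^ B) ^ m ≤ (3 * m ^ t) ^ m * (goodSet m t p).card := by
    calc (m.factorial) ^ t * (2 ^ B) ^ m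
        = ∑ _π : Fin t → Equiv.Perm (Fin m), (2 ^ B) ^ m := by
          simp [Fintype.card_perm]
      _ ≤ ∑ π : Fin t → Equiv.Perm (Fin m), (3 * m ^ t) ^ m * (fib π).card := sum_le_sum (fun π _ => hone π)
      _ = (3 * m ^ t) ^ m * ∑ π : Fin t → Equiv.Perm (Fin m), (fib π).card := by rw [mul_sum]
      _ ≤ _ := Nat.mul_le_mul_left _ hcard
  have hm0 : 0 < m := by
    rcases Nat.eq_zero_or_pos m with h | h
    · subst h
      rcases Nat.eq_zero_or_pos t with h' | h'
      · subst h'; simp at hq; omega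
      · rw [Nat.zero_pow h'] at hq; omega
    · exact h
  have hfac := pow_le_three_pow_factorial m
  have hpow : (m ^ t) ^ m ≤ 3 ^ (t * m) * (m.factorial) ^ t := by
    calc (m ^ t) ^ m = (m ^ m) ^ t := by rw [← pow_mul, ← pow_mul]; ring_nf
      _ ≤ (3 ^ m * m.factorial) ^ t := Nat.pow_le_pow_left hfac t
      _ = _ := by rw [mul_pow, ← pow_mul]; ring_nf
  have hpos : 0 < (m ^ t) ^ m := by positivity
  apply Nat.le_of_mul_le_mul_left _ hpos
  calc (m ^ t) ^ m * 2 ^ (B * m) = (m ^ t) ^ m * (2 ^ B) ^ m := by rw [pow_mul]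
    _ ≤ (3 ^ (t * m) * (m.factorial) ^ t) * (2 ^ B) ^ m := Nat.mul_le_mul_right _ hpow
    _ = 3 ^ (t * m) * ((m.factorial) ^ t * (2 ^ B) ^ m) := by ring
    _ ≤ 3 ^ (t * m) * ((3 * m ^ t) ^ m * (goodSet m t p).card) := Nat.mul_le_mul_left _ hsum
    _ = (m ^ t) ^ m * ((goodSet m t p).card * 3 ^ ((t + 1) * m)) := by
        rw [mul_pow, add_mul, pow_add, one_mul]; ring

end Pool.Agent.H95.EW
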