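import Mathlib
import Pool.Agent.H95.EW.Group

/-! Covering a Hamming slice by coordinate permutations of a dense subset. -/

namespace Pool.Agent.H95.EW

open Finset

variable {ι : Type*} [Fintype ι] [DecidableEq ι]

theorem wt_comp_perm (x : ι → Bool) (σ : Equiv.Perm ι) : wt (x ∘ σ) = wt x := by
  unfold wt
  apply Finset.card_bij (fun i _ => σ i)
  · intro i hi; simpa using hi
  · intro i _ j _ h; exact σ.injective h
  · intro j hj; exact ⟨σ.symm j, by simpa using hj, by simp⟩

omit [DecidableEq ι] in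
theorem exists_perm (x y : ι → Bool) (h : wt x = wt y) : ∃ σ : Equiv.Perm ι, x = y ∘ σ := by
  classical
  have hc : Fintype.card {i // x i = true} = Fintype.card {i // y i = true} := by
    rw [Fintype.card_subtype, Fintype.card_subtype]; exact h
  let e : {i // x i = true} ≃ {i // y i = true} := Fintype.equivOfCardEq hc
  refine ⟨e.extendSubtype, ?_⟩
  funext i
  by_cases hx : x i = true
  · have := e.extendSubtype_mem i hx
    simp only [Function.comp]
    rw [hx, this]
  · have := e.extendSubtype_not_mem i hx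
    simp only [Function.comp]
    simp only [Bool.not_eq_true] at hx this
    rw [hx, this]

theorem cover_step (S : Finset (ι → Bool)) (h : ℕ) (hS : ∀ x ∈ S, wt x = h) (R : ℕ)
    (hR : 2 ^ (Fintype.card ι) ≤ S.card * R) (U : Finset (ι → Bool)) (hU : ∀ u ∈ U, wt u = h) :
    ∃ σ : Equiv.Perm ι, U.card ≤ R * (U.filter (fun u => u ∘ σ ∈ S)).card := by
  classical
  rcases U.eq_empty_or_nonempty with rfl | ⟨u0, hu0⟩
  · exact ⟨1, by simp⟩
  by_contra hcon
  push Not at hcon
  let c : (ι → Bool) → ℕ := fun u => (univ.filter (fun σ : Equiv.Perm ι => u ∘ σ ∈ S)).card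
  let Sl : Finset (ι → Bool) := univ.filter (fun x => wt x = h)
  have hcc : ∀ u v, wt u = h → wt v = h → c u = c v := by
    intro u v hu hv
    obtain ⟨τ, rfl⟩ := exists_perm u v (hu.trans hv.symm)
    apply Finset.card_bij (fun σ _ => τ * σ)
    · intro σ hσ; simpa [Function.comp_assoc, Equiv.Perm.coe_mul] using hσ
    · intro σ _ σ' _ hh; exact mul_left_cancel hh
    · intro σ hσ
      refine ⟨τ⁻¹ * σ, ?_, by simp⟩
      have hσ' := (mem_filter.1 hσ).2
      refine mem_filter.2 ⟨mem_univ _, ?_⟩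
      have : (v ∘ τ) ∘ (τ⁻¹ * σ : Equiv.Perm ι) = v ∘ σ := by
        funext i; simp
      rw [this]; exact hσ'
  have hsw : ∀ σ : Equiv.Perm ι, (Sl.filter (fun u => u ∘ σ ∈ S)).card = S.card := by
    intro σ
    apply Finset.card_bij (fun u _ => u ∘ σ)
    · intro u hu; exact (mem_filter.1 hu).2
    · intro u _ v _ huv
      funext i
      have := congrFun huv (σ.symm i)
      simpa using this
    · intro s hs
      refine ⟨s ∘ σ.symm, ?_, by funext i; simp⟩
      have e : (s ∘ σ.symm) ∘ σ = s := by funext i; simp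
      refine mem_filter.2 ⟨mem_filter.2 ⟨mem_univ _, ?_⟩, by rw [e]; exact hs⟩
      rw [wt_comp_perm]; exact hS s hs
  have hdc : ∀ V : Finset (ι → Bool), ∑ u ∈ V, c u = ∑ σ : Equiv.Perm ι, (V.filter (fun u => u ∘ σ ∈ S)).card := by
    intro V
    simp only [c, card_filter]
    rw [sum_comm]
  have hSl : Sl.card * c u0 = (Fintype.card ι).factorial * S.card := by
    have h1 := hdc Sl
    rw [sum_congr rfl (fun σ _ => hsw σ)] at h1
    rw [sum_congr rfl (fun u hu => hcc u u0 (mem_filter.1 hu).2 (hU u0 hu0))] at h1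
    simpa [Fintype.card_perm] using h1
  have hUs : U.card * c u0 = ∑ σ : Equiv.Perm ι, (U.filter (fun u => u ∘ σ ∈ S)).card := by
    rw [← hdc U, sum_congr rfl (fun u hu => hcc u u0 (hU u hu) (hU u0 hu0))]
    simp
  have hlt : R * (U.card * c u0) < (Fintype.card ι).factorial * U.card := by
    rw [hUs, mul_sum]
    calc ∑ σ : Equiv.Perm ι, R * (U.filter (fun u => u ∘ σ ∈ S)).card
        < ∑ _σ : Equiv.Perm ι, U.card :=
          sum_lt_sum_of_nonempty univ_nonempty (fun σ _ => hcon σ)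
      _ = _ := by simp [Fintype.card_perm]
  have hUpos : 0 < U.card := card_pos.2 ⟨u0, hu0⟩
  have hSlpos : 0 < Sl.card := card_pos.2 ⟨u0, mem_filter.2 ⟨mem_univ _, hU u0 hu0⟩⟩
  have h3 : R * c u0 < (Fintype.card ι).factorial := by
    have : U.card * (R * c u0) < U.card * (Fintype.card ι).factorial := by
      calc U.card * (R * c u0) = R * (U.card * c u0) := by ring
        _ < (Fintype.card ι).factorial * U.card := hlt
        _ = _ := by ring
    exact lt_of_mul_lt_mul_left this (Nat.zero_le _)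
  have hSl2 : Sl.card ≤ 2 ^ (Fintype.card ι) := by
    calc Sl.card ≤ (univ : Finset (ι → Bool)).card := card_le_univ _
      _ = _ := by simp
  have h4 : Sl.card * (Fintype.card ι).factorial ≤ Sl.card * (R * c u0) := by
    calc Sl.card * (Fintype.card ι).factorial ≤ (S.card * R) * (Fintype.card ι).factorial :=
          Nat.mul_le_mul_right _ (hSl2.trans hR)
      _ = R * ((Fintype.card ι).factorial * S.card) := by ring
      _ = R * (Sl.card * c u0) := by rw [hSl]
      _ = _ := by ring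
  have h5 := Nat.le_of_mul_le_mul_left h4 hSlpos
  omega

theorem pred_pow_lt (R : ℕ) (hR : 1 ≤ R) : 2 * (R - 1) ^ R < R ^ R := by
  have h := Real.one_sub_div_pow_le_exp_neg (n := R) (t := 1) (by exact_mod_cast hR)
  have h2 : Real.exp (-1) < 1 / 2 := by
    have := Real.exp_neg_one_lt_d9
    linarith
  have hR0 : (0 : ℝ) < R := by exact_mod_cast hR
  have h3 : (1 - 1 / (R : ℝ)) ^ R * (R : ℝ) ^ R = ((R - 1 : ℕ) : ℝ) ^ R := by
    rw [← mul_pow]
    congr 1
    rw [Nat.cast_sub hR]
    field_simp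
    simp
  have h4 : (0 : ℝ) < (R : ℝ) ^ R := by positivity
  have h5 : ((R - 1 : ℕ) : ℝ) ^ R < 1 / 2 * (R : ℝ) ^ R := by
    rw [← h3]
    exact mul_lt_mul_of_pos_right (lt_of_le_of_lt h h2) h4
  have h6 : 2 * ((R - 1 : ℕ) : ℝ) ^ R < (R : ℝ) ^ R := by linarith
  exact_mod_cast h6

theorem cover (S : Finset (ι → Bool)) (h : ℕ) (hS : ∀ x ∈ S, wt x = h) (R : ℕ) (hR1 : 1 ≤ R)
    (hR : 2 ^ (Fintype.card ι) ≤ S.card * R) (hN : 1 ≤ Fintype.card ι) :
    ∃ T : Finset (Equiv.Perm ι), T.card ≤ R * Fintype.card ι ∧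
      ∀ x : ι → Bool, wt x = h → ∃ σ ∈ T, x ∘ σ ∈ S := by
  classical
  let unc : Finset (Equiv.Perm ι) → Finset (ι → Bool) := fun T =>
    univ.filter (fun x => wt x = h ∧ ∀ σ ∈ T, x ∘ σ ∉ S)
  have key : ∀ t : ℕ, ∃ T : Finset (Equiv.Perm ι), T.card ≤ t ∧
      R ^ t * (unc T).card ≤ (R - 1) ^ t * 2 ^ (Fintype.card ι) := by
    intro t
    induction t with
    | zero =>
      refine ⟨∅, by simp, ?_⟩
      simp only [pow_zero, one_mul]
      calc (unc ∅).card ≤ (univ : Finset (ι → Bool)).card := card_le_univ _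
        _ = _ := by simp
    | succ t ih =>
      obtain ⟨T, hT, hT2⟩ := ih
      obtain ⟨σ, hσ⟩ := cover_step S h hS R hR (unc T) (fun u hu => (mem_filter.1 hu).2.1)
      refine ⟨insert σ T, (card_insert_le _ _).trans (by omega), ?_⟩
      have e : unc (insert σ T) = (unc T).filter (fun u => ¬ (u ∘ σ ∈ S)) := by
        ext u
        simp only [unc, mem_filter, mem_univ, true_and, mem_insert, forall_eq_or_imp]
        tauto
      have hadd : ((unc T).filter (fun u => u ∘ σ ∈ S)).card + (unc (insert σ T)).card = (unc T).card := by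
        rw [e]; exact card_filter_add_card_filter_not _
      have h1 : R * (unc (insert σ T)).card ≤ (R - 1) * (unc T).card := by
        obtain ⟨r, rfl⟩ : ∃ r, R = r + 1 := ⟨R - 1, by omega⟩
        simp only [Nat.add_sub_cancel]
        nlinarith
      calc R ^ (t + 1) * (unc (insert σ T)).card = R ^ t * (R * (unc (insert σ T)).card) := by ring
        _ ≤ R ^ t * ((R - 1) * (unc T).card) := Nat.mul_le_mul_left _ h1
        _ = (R - 1) * (R ^ t * (unc T).card) := by ring
        _ ≤ (R - 1) * ((R - 1) ^ t * 2 ^ (Fintype.card ι)) := Nat.mul_le_mul_left _ hT2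
        _ = _ := by ring
  obtain ⟨T, hT, hT2⟩ := key (R * Fintype.card ι)
  refine ⟨T, hT, ?_⟩
  by_contra hcon
  push Not at hcon
  obtain ⟨x, hx, hx2⟩ := hcon
  have hpos : 1 ≤ (unc T).card := card_pos.2 ⟨x, mem_filter.2 ⟨mem_univ _, hx, hx2⟩⟩
  have h1 : R ^ (R * Fintype.card ι) ≤ (R - 1) ^ (R * Fintype.card ι) * 2 ^ (Fintype.card ι) := by
    calc R ^ (R * Fintype.card ι) = R ^ (R * Fintype.card ι) * 1 := by ring
      _ ≤ R ^ (R * Fintype.card ι) * (unc T).card := Nat.mul_le_mul_left _ hpos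
      _ ≤ _ := hT2
  have h2 : (2 * (R - 1) ^ R) ^ (Fintype.card ι) < (R ^ R) ^ (Fintype.card ι) :=
    Nat.pow_lt_pow_left (pred_pow_lt R hR1) (by omega)
  have h3 : (2 * (R - 1) ^ R) ^ (Fintype.card ι) = (R - 1) ^ (R * Fintype.card ι) * 2 ^ (Fintype.card ι) := by
    rw [mul_pow, ← pow_mul]; ring
  rw [h3, ← pow_mul] at h2
  omega

end Pool.Agent.H95.EW
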