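import Mathlib
import Pool.Agent.H95.EW.Cover

/-! The core covering theorem: the middle slice of a cube whose coordinates are arranged in `g` groups
of `m` blocks of `4p(p+1)` bits is covered by few coordinate permutations of the good set. -/

namespace Pool.Agent.H95.EW

open Finset

theorem wt_prod {α β : Type*} [Fintype α] [Fintype β] (x : α × β → Bool) :
    wt x = ∑ a, wt (fun b => x (a, b)) := by
  classical
  simp only [wt, card_filter]
  rw [Fintype.sum_prod_type]

/-- the good configurations of all groups. -/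
noncomputable def goodAll (g m t p : ℕ) : Finset (Fin g × Fin m × Fin (4 * p * (p + 1)) → Bool) := by
  classical
  exact univ.filter (fun x => ∀ γ i j, i ≠ j →
    Good m t p (wt (fun b => x (γ, i, b))) (wt (fun b => x (γ, j, b))))

theorem mem_goodAll {g m t p : ℕ} {x : Fin g × Fin m × Fin (4 * p * (p + 1)) → Bool} :
    x ∈ goodAll g m t p ↔ ∀ γ i j, i ≠ j →
      Good m t p (wt (fun b => x (γ, i, b))) (wt (fun b => x (γ, j, b))) := by
  classical
  simp [goodAll]

theorem card_goodAll (g m t p : ℕ) : (goodAll g m t p).card = (goodSet m t p).card ^ g := by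
  classical
  have h : (goodAll g m t p).card = (Fintype.piFinset (fun _ : Fin g => goodSet m t p)).card := by
    apply Finset.card_nbij' (fun x γ i b => x (γ, i, b)) (fun X z => X z.1 z.2.1 z.2.2)
    · intro x hx
      have hx := mem_goodAll.1 (mem_coe.1 hx)
      apply mem_coe.2
      rw [Fintype.mem_piFinset]
      intro γ
      exact mem_goodSet.2 (hx γ)
    · intro X hX
      have hX := Fintype.mem_piFinset.1 (mem_coe.1 hX)
      apply mem_coe.2
      exact mem_goodAll.2 (fun γ => mem_goodSet.1 (hX γ))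
    · intro x _; rfl
    · intro X _; rfl
  rw [h, Fintype.card_piFinset]
  simp

theorem wt_of_goodAll (g m t p : ℕ) (hm : 2 ≤ m) (hq : m ^ t = 2 * p + 1)
    (x : Fin g × Fin m × Fin (4 * p * (p + 1)) → Bool) (hx : x ∈ goodAll g m t p) :
    wt x = g * (m * (2 * p * (p + 1))) := by
  rw [wt_prod]
  have : ∀ γ : Fin g, wt (fun b : Fin m × Fin (4 * p * (p + 1)) => x (γ, b)) = m * (2 * p * (p + 1)) := by
    intro γ
    rw [wt_prod]
    exact exact_of_good m t p hm hq (fun i => wt (fun b => x (γ, i, b))) (mem_goodAll.1 hx γ)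
  rw [Finset.sum_congr rfl (fun γ _ => this γ)]
  simp

theorem core (g m t p : ℕ) (hg : 1 ≤ g) (hm : 2 ≤ m) (hp : 1 ≤ p) (hq : m ^ t = 2 * p + 1) :
    ∃ T : Finset (Equiv.Perm (Fin g × Fin m × Fin (4 * p * (p + 1)))),
      T.card ≤ 3 ^ ((t + 1) * (m * g)) * (g * (m * (4 * p * (p + 1)))) ∧
      ∀ x : Fin g × Fin m × Fin (4 * p * (p + 1)) → Bool,
        wt x = g * (m * (2 * p * (p + 1))) ↔
          ∃ σ ∈ T, ∀ γ i j, i ≠ j →
            Good m t p (wt (fun b => x (σ (γ, i, b)))) (wt (fun b => x (σ (γ, j, b)))) := by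
  have hcard : Fintype.card (Fin g × Fin m × Fin (4 * p * (p + 1))) = g * (m * (4 * p * (p + 1))) := by
    simp
  have hR : 2 ^ (Fintype.card (Fin g × Fin m × Fin (4 * p * (p + 1))))
      ≤ (goodAll g m t p).card * 3 ^ ((t + 1) * (m * g)) := by
    rw [hcard, card_goodAll]
    have h := Nat.pow_le_pow_left (card_goodSet m t p hp hq) g
    calc 2 ^ (g * (m * (4 * p * (p + 1)))) = (2 ^ (4 * p * (p + 1) * m)) ^ g := by
          rw [← pow_mul]; ring_nf
      _ ≤ _ := h
      _ = _ := by rw [mul_pow, ← pow_mul]; ring_nf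
  have hN : 1 ≤ Fintype.card (Fin g × Fin m × Fin (4 * p * (p + 1))) := by
    rw [hcard]
    have : 0 < g * (m * (4 * p * (p + 1))) := by positivity
    omega
  obtain ⟨T, hT, hT2⟩ := cover (goodAll g m t p) (g * (m * (2 * p * (p + 1))))
    (fun x hx => wt_of_goodAll g m t p hm hq x hx) (3 ^ ((t + 1) * (m * g)))
    (Nat.one_le_pow _ _ (by norm_num)) hR hN
  refine ⟨T, by rw [hcard] at hT; exact hT, ?_⟩
  intro x
  constructor
  · intro hx
    obtain ⟨σ, hσ, hσ2⟩ := hT2 x hx
    exact ⟨σ, hσ, mem_goodAll.1 hσ2⟩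
  · rintro ⟨σ, hσ, h⟩
    have h2 : x ∘ σ ∈ goodAll g m t p := mem_goodAll.2 h
    rw [← wt_comp_perm x σ]
    exact wt_of_goodAll g m t p hm hq _ h2

end Pool.Agent.H95.EW
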