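import Mathlib

/-! CNFs over `x_1, ..., x_n`, their models, and the enumeration function of local enumeration. -/

namespace Pool.Agent.H95.EW

/-- A clause over `x_1..x_n`: a finite set of literals; the literal `(i, b)` says `x_i = b`. -/
abbrev Clause (n : ℕ) := Finset (Fin n × Bool)

/-- A CNF over `x_1..x_n`: a finite set of clauses. -/
abbrev CNF (n : ℕ) := Finset (Clause n)

/-- `x` is a model of `F`: every clause of `F` has a true literal. -/
def Sat {n : ℕ} (F : CNF n) (x : Fin n → Bool) : Prop := ∀ C ∈ F, ∃ l ∈ C, x l.1 = l.2

/-- `b(n,k,t)`: the largest number of models at Hamming distance exactly `t` from `α` that a `k`-CNF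
`F` on `n` variables without models at distance less than `t` from `α` can have (maximum over all such
`F` and all `α`). -/
noncomputable def enumMax (n k t : ℕ) : ℕ :=
  sSup {m | ∃ (α : Fin n → Bool) (F : CNF n), (∀ c ∈ F, c.card ≤ k) ∧
    (∀ x, Sat F x → t ≤ hammingDist x α) ∧
    m = Nat.card {x : Fin n → Bool // Sat F x ∧ hammingDist x α = t}}

end Pool.Agent.H95.EW
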