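import Mathlib
import Pool.Agent.H95.EW.Core
import Pool.Agent.H95.EW.Defs

/-! CNFs, juntas, padding, and the representation of exact-weight functions. -/

namespace Pool.Agent.H95.EW

open Finset

theorem junta_cnf {n : ℕ} (V : Finset (Fin n)) (P : (Fin n → Bool) → Prop)
    (hP : ∀ x y, (∀ i ∈ V, x i = y i) → (P x ↔ P y)) :
    ∃ F : CNF n, (∀ C ∈ F, C.card ≤ V.card) ∧ F.card ≤ 2 ^ V.card ∧ ∀ x, Sat F x ↔ P x := by
  classical
  refine ⟨(V.powerset.filter (fun A => ¬ P (fun i => decide (i ∈ A)))).image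
    (fun A => V.image (fun v => (v, !decide (v ∈ A)))), ?_, ?_, ?_⟩
  · intro C hC
    obtain ⟨A, -, rfl⟩ := mem_image.1 hC
    exact card_image_le
  · calc _ ≤ (V.powerset.filter (fun A => ¬ P (fun i => decide (i ∈ A)))).card := card_image_le
      _ ≤ V.powerset.card := card_filter_le _ _
      _ = _ := card_powerset _
  · intro x
    constructor
    · intro h
      by_contra hx
      have hA : ¬ P (fun i => decide (i ∈ V.filter (fun v => x v = true))) := by
        intro hA
        apply hx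
        refine (hP _ _ ?_).1 hA
        intro i hi
        simp [hi]
      obtain ⟨l, hl, hl2⟩ := h _ (mem_image.2 ⟨V.filter (fun v => x v = true),
        mem_filter.2 ⟨mem_powerset.2 (filter_subset _ _), hA⟩, rfl⟩)
      obtain ⟨v, hv, rfl⟩ := mem_image.1 hl
      simp [hv] at hl2
    · intro hx C hC
      obtain ⟨A, hA, rfl⟩ := mem_image.1 hC
      have hA2 := (mem_filter.1 hA).2
      by_contra hcon
      push Not at hcon
      apply hA2
      refine (hP _ _ ?_).1 hx
      intro i hi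
      have := hcon (i, !decide (i ∈ A)) (mem_image.2 ⟨i, hi, rfl⟩)
      simp only [ne_eq] at this
      revert this
      cases x i <;> cases decide (i ∈ A) <;> simp

theorem junta_family {n w : ℕ} {I : Type*} [Fintype I] (V : I → Finset (Fin n))
    (P : I → (Fin n → Bool) → Prop)
    (hV : ∀ c, (V c).card ≤ w)
    (hP : ∀ c x y, (∀ i ∈ V c, x i = y i) → (P c x ↔ P c y)) :
    ∃ F : CNF n, (∀ C ∈ F, C.card ≤ w) ∧ F.card ≤ Fintype.card I * 2 ^ w ∧
      ∀ x, Sat F x ↔ ∀ c, P c x := by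
  classical
  choose F hF1 hF2 hF3 using fun c => junta_cnf (V c) (P c) (hP c)
  refine ⟨univ.biUnion F, ?_, ?_, ?_⟩
  · intro C hC
    obtain ⟨c, -, hc⟩ := mem_biUnion.1 hC
    exact (hF1 c C hc).trans (hV c)
  · calc (univ.biUnion F).card ≤ ∑ c, (F c).card := card_biUnion_le
      _ ≤ ∑ _c : I, 2 ^ w := sum_le_sum (fun c _ => (hF2 c).trans
          (Nat.pow_le_pow_right (by norm_num) (hV c)))
      _ = _ := by simp
  · intro x
    constructor
    · intro h c
      rw [← hF3 c]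
      intro C hC
      exact h C (mem_biUnion.2 ⟨c, mem_univ _, hC⟩)
    · intro h C hC
      obtain ⟨c, -, hc⟩ := mem_biUnion.1 hC
      exact (hF3 c x).2 (h c) C hc

theorem wt_sum {α β : Type*} [Fintype α] [Fintype β] (x : α → Bool) (y : β → Bool) :
    wt (Sum.elim x y) = wt x + wt y := by
  classical
  simp only [wt, card_filter]
  rw [Fintype.sum_sum_type]
  rfl

theorem wt_equiv {α β : Type*} [Fintype α] [Fintype β] (e : α ≃ β) (x : β → Bool) :
    wt (x ∘ e) = wt x := by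
  classical
  unfold wt
  apply Finset.card_bij (fun i _ => e i)
  · intro i hi; simpa using hi
  · intro i _ j _ h; exact e.injective h
  · intro j hj; exact ⟨e.symm j, by simpa using hj, by simp⟩

theorem wt_lt (r c : ℕ) (h : c ≤ r) : wt (fun j : Fin r => decide ((j : ℕ) < c)) = c := by
  classical
  unfold wt
  have : (univ.filter (fun j : Fin r => decide ((j : ℕ) < c) = true)) =
      (univ : Finset (Fin c)).map (Fin.castLEEmb h) := by
    ext j
    simp only [decide_eq_true_eq, mem_filter, mem_univ, true_and, mem_map, Fin.castLEEmb_apply]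
    constructor
    · intro hj; exact ⟨⟨j, hj⟩, by ext; simp⟩
    · rintro ⟨a, rfl⟩; simp
  rw [this, card_map, card_univ, Fintype.card_fin]

theorem exact_w (n w g m t p : ℕ) (hg : 1 ≤ g) (hm : 2 ≤ m) (hp : 1 ≤ p) (hq : m ^ t = 2 * p + 1)
    (hn : n ≤ g * (m * (2 * p * (p + 1)))) (hw : w ≤ n) :
    ∃ 𝓕 : Finset (CNF n), 𝓕.card ≤ 3 ^ ((t + 1) * (m * g)) * (g * (m * (4 * p * (p + 1)))) ∧
      (∀ F ∈ 𝓕, (∀ C ∈ F, C.card ≤ 2 * (4 * p * (p + 1))) ∧
        F.card ≤ (g * (m * m)) * 2 ^ (2 * (4 * p * (p + 1)))) ∧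
      ∀ x : Fin n → Bool, wt x = w ↔ ∃ F ∈ 𝓕, Sat F x := by
  classical
  obtain ⟨T, hT, hT2⟩ := core g m t p hg hm hp hq
  set H := g * (m * (2 * p * (p + 1))) with hH
  have hN : g * (m * (4 * p * (p + 1))) = 2 * H := by rw [hH]; ring
  obtain ⟨r, hr⟩ : ∃ r, 2 * H = n + r := ⟨2 * H - n, by omega⟩
  have hcard : Fintype.card (Fin g × Fin m × Fin (4 * p * (p + 1))) = Fintype.card (Fin n ⊕ Fin r) := by
    simp only [Fintype.card_prod, Fintype.card_fin, Fintype.card_sum]
    omega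
  let e : (Fin g × Fin m × Fin (4 * p * (p + 1))) ≃ (Fin n ⊕ Fin r) := Fintype.equivOfCardEq hcard
  let pad : (Fin n → Bool) → (Fin g × Fin m × Fin (4 * p * (p + 1))) → Bool := fun x =>
    (Sum.elim x (fun j : Fin r => decide ((j : ℕ) < H - w))) ∘ e
  have hpad : ∀ x, wt x = w ↔ wt (pad x) = H := by
    intro x
    simp only [pad]
    rw [wt_equiv, wt_sum, wt_lt r (H - w) (by omega)]
    omega
  -- juntas
  let V : Equiv.Perm (Fin g × Fin m × Fin (4 * p * (p + 1))) → (Fin g × Fin m × Fin m) → Finset (Fin n) := fun σ c =>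
    univ.filter (fun v => ∃ b, e (σ (c.1, c.2.1, b)) = Sum.inl v ∨ e (σ (c.1, c.2.2, b)) = Sum.inl v)
  let P : Equiv.Perm (Fin g × Fin m × Fin (4 * p * (p + 1))) → (Fin g × Fin m × Fin m) → (Fin n → Bool) → Prop :=
    fun σ c x => c.2.1 ≠ c.2.2 →
      Good m t p (wt (fun b => pad x (σ (c.1, c.2.1, b)))) (wt (fun b => pad x (σ (c.1, c.2.2, b))))
  have hV : ∀ σ c, (V σ c).card ≤ 2 * (4 * p * (p + 1)) := by
    intro σ c
    let f : Bool × Fin (4 * p * (p + 1)) → Fin n ⊕ Fin r := fun z =>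
      e (σ (c.1, (if z.1 then c.2.1 else c.2.2), z.2))
    have h1 : ((V σ c).map ⟨Sum.inl, Sum.inl_injective⟩ : Finset (Fin n ⊕ Fin r)) ⊆ univ.image f := by
      intro u hu
      obtain ⟨v, hv, rfl⟩ := mem_map.1 hu
      obtain ⟨b, hb | hb⟩ := (mem_filter.1 hv).2
      · exact mem_image.2 ⟨(true, b), mem_univ _, by simpa [f] using hb⟩
      · exact mem_image.2 ⟨(false, b), mem_univ _, by simpa [f] using hb⟩
    have h2 := card_le_card h1
    rw [card_map] at h2
    calc (V σ c).card ≤ (univ.image f).card := h2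
      _ ≤ (univ : Finset (Bool × Fin (4 * p * (p + 1)))).card := card_image_le
      _ = 2 * (4 * p * (p + 1)) := by simp
  have hP : ∀ σ c x y, (∀ i ∈ V σ c, x i = y i) → (P σ c x ↔ P σ c y) := by
    intro σ c x y hxy
    have h1 : ∀ i : Fin m, (∀ b v, e (σ (c.1, i, b)) = Sum.inl v → x v = y v) →
        (fun b => pad x (σ (c.1, i, b))) = (fun b => pad y (σ (c.1, i, b))) := by
      intro i hi
      funext b
      simp only [pad, Function.comp]
      rcases hz : e (σ (c.1, i, b)) with v | j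
      · simp only [Sum.elim_inl]; exact hi b v hz
      · simp
    simp only [P]
    rw [h1 c.2.1 (fun b v hv => hxy v (mem_filter.2 ⟨mem_univ _, b, Or.inl hv⟩)),
      h1 c.2.2 (fun b v hv => hxy v (mem_filter.2 ⟨mem_univ _, b, Or.inr hv⟩))]
  choose F hF1 hF2 hF3 using fun σ => junta_family (w := 2 * (4 * p * (p + 1))) (V σ) (P σ) (hV σ) (hP σ)
  refine ⟨T.image F, card_image_le.trans hT, ?_, ?_⟩
  · intro F' hF'
    obtain ⟨σ, -, rfl⟩ := mem_image.1 hF'
    refine ⟨hF1 σ, ?_⟩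
    have := hF2 σ
    simpa using this
  · intro x
    rw [hpad x, hT2 (pad x)]
    constructor
    · rintro ⟨σ, hσ, h⟩
      refine ⟨F σ, mem_image.2 ⟨σ, hσ, rfl⟩, ?_⟩
      rw [hF3]
      intro c hc
      exact h c.1 c.2.1 c.2.2 hc
    · rintro ⟨F', hF', h⟩
      obtain ⟨σ, hσ, rfl⟩ := mem_image.1 hF'
      rw [hF3] at h
      exact ⟨σ, hσ, fun γ i j hij => h (γ, i, j) hij⟩

end Pool.Agent.H95.EW
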