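import Mathlib
import Pool.Agent.H95.EW.Cnf

/-! The choice of the parameters. -/

namespace Pool.Agent.H95.EW

open Finset

/-- the constant -/
def Ct (t : ℕ) : ℕ := 2 * 9 ^ t + (4 * t + 5) + 2 * (t + 1) * 3 ^ (t + 2)

/-- choice of an odd `m ≥ 3` with `2 m^(2t) ≤ k ≤ 2 3^t m^(2t)`. -/
theorem choose_m (k t : ℕ) (hk : 2 * 9 ^ t ≤ k) (ht : 1 ≤ t) :
    ∃ m, 3 ≤ m ∧ Odd m ∧ 2 * m ^ (2 * t) ≤ k ∧ k ≤ 2 * 3 ^ t * m ^ (2 * t) := by
  have hex : ∃ a : ℕ, k < 2 * (2 * a + 3) ^ (2 * t) := by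
    refine ⟨k, ?_⟩
    calc k < 2 * (2 * k + 3) := by omega
      _ ≤ 2 * (2 * k + 3) ^ (2 * t) := by
          apply Nat.mul_le_mul_left
          exact Nat.le_self_pow (by omega) _
  classical
  set a := Nat.find hex with ha
  have h1 : k < 2 * (2 * a + 3) ^ (2 * t) := Nat.find_spec hex
  have ha1 : 1 ≤ a := by
    by_contra h0
    have h0 : a = 0 := by omega
    rw [h0] at h1
    rw [pow_mul] at h1
    norm_num at h1
    omega
  have h2 : 2 * (2 * a + 1) ^ (2 * t) ≤ k := by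
    have := Nat.find_min hex (m := a - 1) (by omega)
    push Not at this
    rw [show 2 * (a - 1) + 3 = 2 * a + 1 by omega] at this
    exact this
  refine ⟨2 * a + 1, by omega, ⟨a, rfl⟩, h2, ?_⟩
  have h3 : (3 * (2 * a + 3)) ^ (2 * t) ≤ (5 * (2 * a + 1)) ^ (2 * t) :=
    Nat.pow_le_pow_left (by omega) _
  have h4 : 25 ^ t ≤ 27 ^ t := Nat.pow_le_pow_left (by norm_num) _
  have h5 : 9 ^ t * k ≤ 9 ^ t * (2 * 3 ^ t * (2 * a + 1) ^ (2 * t)) := by
    calc 9 ^ t * k ≤ 9 ^ t * (2 * (2 * a + 3) ^ (2 * t)) := Nat.mul_le_mul_left _ h1.le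
      _ = 2 * (3 * (2 * a + 3)) ^ (2 * t) := by
          rw [mul_pow 3, pow_mul 3]; norm_num; ring
      _ ≤ 2 * (5 * (2 * a + 1)) ^ (2 * t) := Nat.mul_le_mul_left _ h3
      _ = 25 ^ t * (2 * (2 * a + 1) ^ (2 * t)) := by
          rw [mul_pow 5, pow_mul 5]; norm_num; ring
      _ ≤ 27 ^ t * (2 * (2 * a + 1) ^ (2 * t)) := Nat.mul_le_mul_right _ h4
      _ = 9 ^ t * (2 * 3 ^ t * (2 * a + 1) ^ (2 * t)) := by
          rw [show 27 = 9 * 3 by norm_num, mul_pow]; ring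
  exact Nat.le_of_mul_le_mul_left h5 (by positivity)

/-- exact weights, with parameters chosen. -/
theorem exact_k (n k t w : ℕ) (ht : 1 ≤ t) (hk : 2 * 9 ^ t ≤ k) (hkn : k ^ (2 * t + 1) ≤ n ^ (2 * t))
    (hw : w ≤ n) :
    ∃ L : ℕ, L * k ≤ 3 ^ (t + 2) * n ∧
    ∃ 𝓕 : Finset (CNF n), 𝓕.card ≤ 3 ^ ((t + 1) * L) * (3 * n) ∧
      (∀ F ∈ 𝓕, (∀ C ∈ F, C.card ≤ k) ∧ F.card ≤ 3 * n * 2 ^ k) ∧
      ∀ x : Fin n → Bool, wt x = w ↔ ∃ F ∈ 𝓕, Sat F x := by
  obtain ⟨m, hm3, hmo, hmk, hkm⟩ := choose_m k t hk ht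
  have hqo : Odd (m ^ t) := hmo.pow
  obtain ⟨p, hp⟩ := hqo
  have hq3 : 3 ≤ m ^ t := hm3.trans (Nat.le_self_pow (by omega) _)
  have hp1 : 1 ≤ p := by omega
  have hB : 4 * p * (p + 1) + 1 = m ^ (2 * t) := by
    rw [mul_comm 2 t, pow_mul, hp]; ring
  set B := 4 * p * (p + 1) with hBd
  have hB8 : 8 ≤ B := by rw [hBd]; nlinarith
  have hmB : m ≤ B := by
    have : m * m ≤ m ^ (2 * t) := by
      rw [pow_mul, ← pow_two]; exact Nat.le_self_pow (by omega) _
    nlinarith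
  have hmn : m * B ≤ n := by
    have h1 : m ^ (2 * t + 1) ≤ n := by
      have : (m ^ (2 * t + 1)) ^ (2 * t) ≤ n ^ (2 * t) := by
        calc (m ^ (2 * t + 1)) ^ (2 * t) = (m ^ (2 * t)) ^ (2 * t + 1) := by
              rw [← pow_mul, ← pow_mul]; ring_nf
          _ ≤ k ^ (2 * t + 1) := Nat.pow_le_pow_left (by omega) _
          _ ≤ _ := hkn
      exact (Nat.pow_le_pow_iff_left (by omega)).1 this
    calc m * B ≤ m * m ^ (2 * t) := Nat.mul_le_mul_left _ (by omega)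
      _ = m ^ (2 * t + 1) := by ring
      _ ≤ n := h1
  set g := 2 * n / (m * B) + 1 with hg
  have hmBpos : 0 < m * B := by positivity
  have hg1 : 2 * n ≤ g * (m * B) := by
    rw [hg]
    have := Nat.lt_div_mul_add (a := 2 * n) hmBpos
    nlinarith
  have hg2 : g * (m * B) ≤ 3 * n := by
    rw [hg, add_mul, one_mul]
    have := Nat.div_mul_le_self (2 * n) (m * B)
    omega
  have hH : g * (m * B) = 2 * (g * (m * (2 * p * (p + 1)))) := by rw [hBd]; ring
  refine ⟨m * g, ?_, ?_⟩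
  · -- m g k ≤ 3^(t+2) n
    have h1 : k ≤ 3 ^ (t + 1) * B := by
      have h2 : 2 * m ^ (2 * t) ≤ 3 * B := by omega
      calc k ≤ 2 * 3 ^ t * m ^ (2 * t) := hkm
        _ = 3 ^ t * (2 * m ^ (2 * t)) := by ring
        _ ≤ 3 ^ t * (3 * B) := Nat.mul_le_mul_left _ h2
        _ = _ := by ring
    calc m * g * k ≤ m * g * (3 ^ (t + 1) * B) := Nat.mul_le_mul_left _ h1
      _ = 3 ^ (t + 1) * (g * (m * B)) := by ring
      _ ≤ 3 ^ (t + 1) * (3 * n) := Nat.mul_le_mul_left _ hg2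
      _ = _ := by ring
  · have hg0 : 1 ≤ g := by rw [hg]; exact Nat.le_add_left _ _
    have hnH : n ≤ g * (m * (2 * p * (p + 1))) := by
      rw [hH] at hg1
      exact Nat.le_of_mul_le_mul_left hg1 (by norm_num)
    obtain ⟨𝓕, h1, h2, h3⟩ := exact_w n w g m t p hg0 (by omega) hp1 hp hnH hw
    refine ⟨𝓕, ?_, ?_, h3⟩
    · calc 𝓕.card ≤ 3 ^ ((t + 1) * (m * g)) * (g * (m * (4 * p * (p + 1)))) := h1
        _ ≤ _ := Nat.mul_le_mul_left _ hg2
    · intro F hF
      obtain ⟨h4, h5⟩ := h2 F hF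
      refine ⟨fun C hC => (h4 C hC).trans (by omega), h5.trans ?_⟩
      apply Nat.mul_le_mul
      · calc g * (m * m) ≤ g * (m * B) := Nat.mul_le_mul_left _ (Nat.mul_le_mul_left _ hmB)
          _ ≤ 3 * n := hg2
      · apply Nat.pow_le_pow_right (by norm_num); omega

theorem trivial_k (n k : ℕ) (hk : 1 ≤ k) (W : Set ℕ) :
    ∃ 𝓕 : Finset (CNF n), 𝓕.card ≤ 2 ^ n ∧
      (∀ F ∈ 𝓕, (∀ C ∈ F, C.card ≤ k) ∧ F.card ≤ 3 * n * 2 ^ k) ∧
      ∀ x : Fin n → Bool, wt x ∈ W ↔ ∃ F ∈ 𝓕, Sat F x := by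
  classical
  refine ⟨(univ.filter (fun x : Fin n → Bool => wt x ∈ W)).image
    (fun x => (univ : Finset (Fin n)).image (fun i => ({(i, x i)} : Clause n))), ?_, ?_, ?_⟩
  · calc _ ≤ (univ.filter (fun x : Fin n → Bool => wt x ∈ W)).card := card_image_le
      _ ≤ (univ : Finset (Fin n → Bool)).card := card_filter_le _ _
      _ = _ := by simp
  · intro F hF
    obtain ⟨x, -, rfl⟩ := mem_image.1 hF
    constructor
    · intro C hC
      obtain ⟨i, -, rfl⟩ := mem_image.1 hC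
      simpa using hk
    · calc _ ≤ (univ : Finset (Fin n)).card := card_image_le
        _ = n := by simp
        _ = n * 1 := by ring
        _ ≤ (3 * n) * 2 ^ k := Nat.mul_le_mul (by omega) Nat.one_le_two_pow
  · intro x
    constructor
    · intro hx
      refine ⟨_, mem_image.2 ⟨x, mem_filter.2 ⟨mem_univ _, hx⟩, rfl⟩, ?_⟩
      intro C hC
      obtain ⟨i, -, rfl⟩ := mem_image.1 hC
      exact ⟨(i, x i), by simp, rfl⟩
    · rintro ⟨F, hF, hs⟩
      obtain ⟨y, hy, rfl⟩ := mem_image.1 hF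
      have : x = y := by
        funext i
        obtain ⟨l, hl, hl2⟩ := hs {(i, y i)} (mem_image.2 ⟨i, mem_univ _, rfl⟩)
        rw [mem_singleton] at hl
        subst hl
        exact hl2
      subst this
      exact (mem_filter.1 hy).2

theorem sym_k (n k t : ℕ) (ht : 1 ≤ t) (hk : 1 ≤ k) (hkn : k ^ (2 * t + 1) ≤ n ^ (2 * t)) (W : Set ℕ) :
    ∃ 𝓕 : Finset (CNF n), (𝓕.card : ℝ) ≤ (2 : ℝ) ^ ((Ct t : ℝ) * n / k) ∧
      (∀ F ∈ 𝓕, (∀ C ∈ F, C.card ≤ k) ∧ F.card ≤ 3 * n * 2 ^ k) ∧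
      ∀ x : Fin n → Bool, wt x ∈ W ↔ ∃ F ∈ 𝓕, Sat F x := by
  classical
  have hk0 : (0 : ℝ) < k := by exact_mod_cast hk
  have hn1 : 1 ≤ n := by
    rcases Nat.eq_zero_or_pos n with h | h
    · subst h
      rw [Nat.zero_pow (by omega)] at hkn
      have : 0 < k ^ (2 * t + 1) := by positivity
      omega
    · exact h
  have hn0 : (0 : ℝ) < n := by exact_mod_cast hn1
  by_cases hsm : k < 2 * 9 ^ t
  · obtain ⟨𝓕, h1, h2, h3⟩ := trivial_k n k hk W
    refine ⟨𝓕, ?_, h2, h3⟩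
    have h4 : (𝓕.card : ℝ) ≤ (2 : ℝ) ^ (n : ℝ) := by
      rw [Real.rpow_natCast]; exact_mod_cast h1
    refine h4.trans (Real.rpow_le_rpow_of_exponent_le (by norm_num) ?_)
    rw [le_div_iff₀ hk0]
    have h5 : k ≤ Ct t := by unfold Ct; omega
    have h5' : (k : ℝ) ≤ Ct t := by exact_mod_cast h5
    nlinarith
  · push Not at hsm
    have hex := fun w : ℕ => fun hw : w ≤ n => exact_k n k t w ht hsm hkn hw
    choose L hL 𝓖 hG1 hG2 hG3 using hex
    let ws : Finset ℕ := (range (n + 1)).filter (fun w => w ∈ W)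
    have hws : ∀ w ∈ ws, w ≤ n := fun w hw => by
      have := mem_range.1 (mem_filter.1 hw).1; omega
    refine ⟨ws.attach.biUnion (fun w => 𝓖 w.1 (hws w.1 w.2)), ?_, ?_, ?_⟩
    · -- cardinality
      set z : ℝ := (n : ℝ) / k with hz
      have hkle : k ≤ n := by
        have : k ^ (2 * t + 1) ≤ n ^ (2 * t + 1) := hkn.trans (Nat.pow_le_pow_right hn1 (by omega))
        exact (Nat.pow_le_pow_iff_left (by omega)).1 this
      have hz1 : 1 ≤ z := by
        rw [hz, le_div_iff₀ hk0, one_mul]; exact_mod_cast hkle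
      have hnz : (n : ℝ) ≤ z ^ (2 * t + 1) := by
        rw [hz, div_pow, le_div_iff₀ (by positivity)]
        have : (k : ℝ) ^ (2 * t + 1) ≤ (n : ℝ) ^ (2 * t) := by exact_mod_cast hkn
        calc (n : ℝ) * (k : ℝ) ^ (2 * t + 1) ≤ n * (n : ℝ) ^ (2 * t) := by gcongr
          _ = _ := by ring
      have hz2 : z ≤ (2 : ℝ) ^ z := by
        have h := one_add_mul_self_le_rpow_one_add (s := 1) (by norm_num) hz1
        have e : (1 : ℝ) + 1 = 2 := by norm_num
        rw [e] at h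
        linarith
      have hn2 : (n : ℝ) ≤ (2 : ℝ) ^ ((2 * t + 1) * z) := by
        calc (n : ℝ) ≤ z ^ (2 * t + 1) := hnz
          _ ≤ ((2 : ℝ) ^ z) ^ (2 * t + 1) := pow_le_pow_left₀ (by linarith) hz2 _
          _ = (2 : ℝ) ^ ((2 * t + 1) * z) := by
              rw [← Real.rpow_natCast, ← Real.rpow_mul (by norm_num)]
              push_cast; ring_nf
      have hone : ∀ (w : ℕ) (hw : w ≤ n), ((𝓖 w hw).card : ℝ) ≤
          (2 : ℝ) ^ (2 * (t + 1) * 3 ^ (t + 2) * z) * (3 * n) := by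
        intro w hw
        have h1 : ((𝓖 w hw).card : ℝ) ≤ (3 : ℝ) ^ ((t + 1) * L w hw) * (3 * n) := by
          exact_mod_cast hG1 w hw
        refine h1.trans (mul_le_mul_of_nonneg_right ?_ (by positivity))
        have h2 : (L w hw : ℝ) ≤ 3 ^ (t + 2) * z := by
          rw [hz, ← mul_div_assoc, le_div_iff₀ hk0]
          exact_mod_cast hL w hw
        calc (3 : ℝ) ^ ((t + 1) * L w hw) ≤ (4 : ℝ) ^ ((t + 1) * L w hw) :=
              pow_le_pow_left₀ (by norm_num) (by norm_num) _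
          _ = (2 : ℝ) ^ ((2 * (t + 1) * L w hw : ℕ) : ℝ) := by
              rw [Real.rpow_natCast, show (4 : ℝ) = 2 ^ 2 by norm_num, ← pow_mul]; ring_nf
          _ ≤ _ := by
              apply Real.rpow_le_rpow_of_exponent_le (by norm_num)
              push_cast
              calc (2 * (t + 1) * (L w hw : ℝ)) ≤ 2 * (t + 1) * (3 ^ (t + 2) * z) := by gcongr
                _ = _ := by ring
      have hcard : ((ws.attach.biUnion (fun w => 𝓖 w.1 (hws w.1 w.2))).card : ℝ) ≤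
          (n + 1) * ((2 : ℝ) ^ (2 * (t + 1) * 3 ^ (t + 2) * z) * (3 * n)) := by
        calc ((ws.attach.biUnion (fun w => 𝓖 w.1 (hws w.1 w.2))).card : ℝ)
            ≤ ((∑ w ∈ ws.attach, (𝓖 w.1 (hws w.1 w.2)).card : ℕ) : ℝ) := by
              exact_mod_cast card_biUnion_le
          _ = ∑ w ∈ ws.attach, ((𝓖 w.1 (hws w.1 w.2)).card : ℝ) := by push_cast; rfl
          _ ≤ ∑ w ∈ ws.attach, ((2 : ℝ) ^ (2 * (t + 1) * 3 ^ (t + 2) * z) * (3 * n)) :=
              sum_le_sum (fun w _ => hone w.1 _)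
          _ = (ws.card : ℝ) * ((2 : ℝ) ^ (2 * (t + 1) * 3 ^ (t + 2) * z) * (3 * n)) := by
              rw [sum_const, card_attach, nsmul_eq_mul]
          _ ≤ _ := by
              apply mul_le_mul_of_nonneg_right _ (by positivity)
              have : ws.card ≤ n + 1 := by
                calc ws.card ≤ (range (n + 1)).card := card_filter_le _ _
                  _ = n + 1 := card_range _
              exact_mod_cast this
      refine hcard.trans ?_
      have h8 : (8 : ℝ) ≤ (2 : ℝ) ^ (3 * z) := by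
        calc (8 : ℝ) = (2 : ℝ) ^ (3 : ℝ) := by norm_num
          _ ≤ _ := Real.rpow_le_rpow_of_exponent_le (by norm_num) (by linarith)
      have hn1r : (1 : ℝ) ≤ n := by exact_mod_cast hn1
      have h2z : (0 : ℝ) < (2 : ℝ) ^ (2 * (t + 1) * 3 ^ (t + 2) * z) := by positivity
      calc (n + 1) * ((2 : ℝ) ^ (2 * (t + 1) * 3 ^ (t + 2) * z) * (3 * n))
          ≤ (2 * n) * ((2 : ℝ) ^ (2 * (t + 1) * 3 ^ (t + 2) * z) * (3 * n)) := by gcongr; linarith
        _ = 6 * (n * n) * (2 : ℝ) ^ (2 * (t + 1) * 3 ^ (t + 2) * z) := by ring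
        _ ≤ (2 : ℝ) ^ (3 * z) * ((2 : ℝ) ^ ((2 * t + 1) * z) * (2 : ℝ) ^ ((2 * t + 1) * z)) *
            (2 : ℝ) ^ (2 * (t + 1) * 3 ^ (t + 2) * z) := by
            gcongr
            linarith
        _ = (2 : ℝ) ^ (3 * z + ((2 * t + 1) * z + (2 * t + 1) * z) + 2 * (t + 1) * 3 ^ (t + 2) * z) := by
            rw [Real.rpow_add (by norm_num), Real.rpow_add (by norm_num), Real.rpow_add (by norm_num)]
        _ ≤ _ := by
            apply Real.rpow_le_rpow_of_exponent_le (by norm_num)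
            rw [mul_div_assoc, ← hz]
            unfold Ct
            push_cast
            have : (0 : ℝ) ≤ 2 * 9 ^ t * z := by positivity
            nlinarith
    · intro F hF
      obtain ⟨w, -, hw⟩ := mem_biUnion.1 hF
      exact hG2 _ _ F hw
    · intro x
      have hxn : wt x ≤ n := by
        calc wt x ≤ (univ : Finset (Fin n)).card := card_filter_le _ _
          _ = n := by simp
      constructor
      · intro hx
        have hmem : wt x ∈ ws := mem_filter.2 ⟨mem_range.2 (by omega), hx⟩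
        obtain ⟨F, hF, hs⟩ := (hG3 (wt x) hxn x).1 rfl
        exact ⟨F, mem_biUnion.2 ⟨⟨wt x, hmem⟩, mem_attach _ _, hF⟩, hs⟩
      · rintro ⟨F, hF, hs⟩
        obtain ⟨w, -, hw⟩ := mem_biUnion.1 hF
        have := (hG3 w.1 (hws w.1 w.2) x).2 ⟨F, hw, hs⟩
        rw [this]
        exact (mem_filter.1 w.2).2

end Pool.Agent.H95.EW
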