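import Mathlib
import Pool.Agent.H95.EW.Final

/-! The two corollaries: formulas with many models of one weight, and depth three. -/

namespace Pool.Agent.H95.EW

open Finset

theorem one_w (n k t w : ℕ) (ht : 1 ≤ t) (hk : 1 ≤ k) (hkn : k ^ (2 * t + 1) ≤ n ^ (2 * t)) (hw : w ≤ n) :
    ∃ F : CNF n, (∀ C ∈ F, C.card ≤ k) ∧ F.card ≤ 3 * n * 2 ^ k ∧ (∀ x, Sat F x → wt x = w) ∧
      (n.choose w : ℝ) ≤ (2 : ℝ) ^ ((Ct t : ℝ) * n / k) * (Nat.card {x : Fin n → Bool // Sat F x} : ℝ) := by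
  classical
  obtain ⟨𝓕, h1, h2, h3⟩ := sym_k n k t ht hk hkn {w}
  simp only [Set.mem_singleton_iff] at h3
  by_contra hcon
  push Not at hcon
  have h4 : ∀ F ∈ 𝓕, (2 : ℝ) ^ ((Ct t : ℝ) * n / k) * ((univ.filter (fun x => Sat F x)).card : ℝ) < n.choose w := by
    intro F hF
    have h5 := hcon F (h2 F hF).1 (h2 F hF).2 (fun x hx => (h3 x).2 ⟨F, hF, hx⟩)
    rwa [Nat.card_eq_fintype_card, Fintype.card_subtype] at h5
  have hch : 0 < n.choose w := Nat.choose_pos hw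
  have h6 : n.choose w ≤ ∑ F ∈ 𝓕, (univ.filter (fun x => Sat F x)).card := by
    rw [← card_wt]
    refine (card_le_card ?_).trans card_biUnion_le
    intro x hx
    obtain ⟨F, hF, hs⟩ := (h3 x).1 (mem_filter.1 hx).2
    exact mem_biUnion.2 ⟨F, hF, mem_filter.2 ⟨mem_univ _, hs⟩⟩
  have hne : 𝓕.Nonempty := by
    rw [nonempty_iff_ne_empty]
    rintro rfl
    simp at h6
    omega
  have h7 : (n.choose w : ℝ) ≤ ∑ F ∈ 𝓕, ((univ.filter (fun x => Sat F x)).card : ℝ) := by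
    exact_mod_cast h6
  have hM : (0 : ℝ) < (2 : ℝ) ^ ((Ct t : ℝ) * n / k) := by positivity
  have h8 : (2 : ℝ) ^ ((Ct t : ℝ) * n / k) * ∑ F ∈ 𝓕, ((univ.filter (fun x => Sat F x)).card : ℝ)
      < (𝓕.card : ℝ) * n.choose w := by
    rw [mul_sum]
    calc _ < ∑ F ∈ 𝓕, (n.choose w : ℝ) := sum_lt_sum_of_nonempty hne h4
      _ = _ := by rw [sum_const, nsmul_eq_mul]
  have h9 : (𝓕.card : ℝ) * n.choose w ≤ (2 : ℝ) ^ ((Ct t : ℝ) * n / k) * n.choose w :=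
    mul_le_mul_of_nonneg_right h1 (by positivity)
  have h10 := mul_le_mul_of_nonneg_left h7 hM.le
  linarith

theorem depth_three : ∃ C : ℝ, ∀ n : ℕ, 1 ≤ n → ∀ W : Set ℕ, ∃ 𝓕 : Finset (CNF n),
    (∑ F ∈ 𝓕, ((F.card : ℝ) + 1)) ≤ (2 : ℝ) ^ (C * Real.sqrt n) ∧
    (∀ F ∈ 𝓕, ∀ c ∈ F, c.card ≤ Nat.sqrt n) ∧
    ∀ x : Fin n → Bool, wt x ∈ W ↔ ∃ F ∈ 𝓕, Sat F x := by
  refine ⟨2 * Ct 1 + 5, ?_⟩
  intro n hn W
  set k := Nat.sqrt n with hk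
  have hk1 : 1 ≤ k := Nat.sqrt_pos.2 hn
  have hk2 : k * k ≤ n := Nat.sqrt_le n
  have hkn : k ^ (2 * 1 + 1) ≤ n ^ (2 * 1) := by
    have : k ≤ n := by nlinarith
    calc k ^ (2 * 1 + 1) = k * (k * k) := by ring
      _ ≤ n * n := Nat.mul_le_mul this hk2
      _ = _ := by ring
  obtain ⟨𝓕, h1, h2, h3⟩ := sym_k n k 1 le_rfl hk1 hkn W
  refine ⟨𝓕, ?_, fun F hF => (h2 F hF).1, h3⟩
  set s := Real.sqrt n with hs
  have hn1 : (1 : ℝ) ≤ n := by exact_mod_cast hn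
  have hs1 : 1 ≤ s := by rw [hs]; exact Real.one_le_sqrt.2 hn1
  have hss : s * s = n := Real.mul_self_sqrt (by positivity)
  have hks : (k : ℝ) ≤ s := by
    rw [hs]
    apply Real.le_sqrt_of_sq_le
    have : ((k * k : ℕ) : ℝ) ≤ n := by exact_mod_cast hk2
    push_cast at this
    nlinarith
  have hk0 : (0 : ℝ) < k := by exact_mod_cast hk1
  have hsk : s ≤ 2 * k := by
    have h4 : n < (k + 1) * (k + 1) := Nat.lt_succ_sqrt n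
    have h5 : (n : ℝ) < (k + 1) * (k + 1) := by exact_mod_cast h4
    have h6 : s < k + 1 := by
      by_contra hcon
      push Not at hcon
      nlinarith
    have : (1 : ℝ) ≤ k := by exact_mod_cast hk1
    linarith
  have hnk : (n : ℝ) / k ≤ 2 * s := by
    rw [div_le_iff₀ hk0]
    nlinarith
  have hF : ∀ F ∈ 𝓕, ((F.card : ℝ) + 1) ≤ 4 * n * (2 : ℝ) ^ k := by
    intro F hF
    have h4 : (F.card : ℝ) ≤ 3 * n * 2 ^ k := by exact_mod_cast (h2 F hF).2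
    have h5 : (1 : ℝ) ≤ (2 : ℝ) ^ k := one_le_pow₀ (by norm_num)
    nlinarith
  have hz2 : s ≤ (2 : ℝ) ^ s := by
    have h := one_add_mul_self_le_rpow_one_add (s := 1) (by norm_num) hs1
    have e : (1 : ℝ) + 1 = 2 := by norm_num
    rw [e] at h
    linarith
  have h2s : (0 : ℝ) < (2 : ℝ) ^ s := by positivity
  have h4s : (4 : ℝ) ≤ (2 : ℝ) ^ (2 * s) := by
    calc (4 : ℝ) = (2 : ℝ) ^ (2 : ℝ) := by norm_num
      _ ≤ _ := Real.rpow_le_rpow_of_exponent_le (by norm_num) (by linarith)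
  have hcard : (𝓕.card : ℝ) ≤ (2 : ℝ) ^ (2 * Ct 1 * s) := by
    refine h1.trans (Real.rpow_le_rpow_of_exponent_le (by norm_num) ?_)
    rw [mul_div_assoc]
    have : (Ct 1 : ℝ) * (n / k) ≤ Ct 1 * (2 * s) := by gcongr
    linarith
  calc (∑ F ∈ 𝓕, ((F.card : ℝ) + 1)) ≤ ∑ F ∈ 𝓕, (4 * n * (2 : ℝ) ^ k) := sum_le_sum hF
    _ = 𝓕.card * (4 * n * (2 : ℝ) ^ k) := by rw [sum_const, nsmul_eq_mul]
    _ ≤ (2 : ℝ) ^ (2 * Ct 1 * s) * ((2 : ℝ) ^ (2 * s) * ((2 : ℝ) ^ s * (2 : ℝ) ^ s) * (2 : ℝ) ^ s) := by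
        have e1 : (n : ℝ) ≤ (2 : ℝ) ^ s * (2 : ℝ) ^ s := by
          rw [← hss]; exact mul_le_mul hz2 hz2 (by linarith) h2s.le
        have e2 : (2 : ℝ) ^ k ≤ (2 : ℝ) ^ s := by
          rw [← Real.rpow_natCast]
          exact Real.rpow_le_rpow_of_exponent_le (by norm_num) hks
        gcongr
    _ = (2 : ℝ) ^ (2 * Ct 1 * s + ((2 * s + (s + s)) + s)) := by
        rw [Real.rpow_add (by norm_num), Real.rpow_add (by norm_num), Real.rpow_add (by norm_num),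
          Real.rpow_add (by norm_num)]
    _ = _ := by ring_nf

theorem eps_to_t (ε : ℝ) (hε : 0 < ε) : ∃ t : ℕ, 1 ≤ t ∧ ∀ n k : ℕ, 1 ≤ n → (k : ℝ) ≤ (n : ℝ) ^ (1 - ε) →
    k ^ (2 * t + 1) ≤ n ^ (2 * t) := by
  refine ⟨⌈1 / ε⌉₊ + 1, by omega, ?_⟩
  intro n k hn hk
  set t := ⌈1 / ε⌉₊ + 1 with ht
  have h1 : 1 / ε ≤ t := by
    have := Nat.le_ceil (1 / ε)
    rw [ht]; push_cast; linarith
  have h2 : 1 ≤ ε * (2 * t + 1) := by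
    rw [div_le_iff₀ hε] at h1
    have : (0 : ℝ) ≤ t := Nat.cast_nonneg _
    nlinarith
  have hn1 : (1 : ℝ) ≤ n := by exact_mod_cast hn
  have h3 : (k : ℝ) ^ (2 * t + 1) ≤ (n : ℝ) ^ (2 * t) := by
    calc (k : ℝ) ^ (2 * t + 1) ≤ ((n : ℝ) ^ (1 - ε)) ^ (2 * t + 1) :=
          pow_le_pow_left₀ (Nat.cast_nonneg _) hk _
      _ = (n : ℝ) ^ ((1 - ε) * (2 * t + 1)) := by
          rw [← Real.rpow_natCast, ← Real.rpow_mul (by positivity)]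
          push_cast; ring_nf
      _ ≤ (n : ℝ) ^ ((2 * t : ℕ) : ℝ) := by
          apply Real.rpow_le_rpow_of_exponent_le hn1
          push_cast
          nlinarith
      _ = _ := by rw [Real.rpow_natCast]
  exact_mod_cast h3

theorem main :
    (∀ ε : ℝ, 0 < ε → ∃ C : ℝ, ∀ n k : ℕ, 1 ≤ n → 1 ≤ k → (k : ℝ) ≤ (n : ℝ) ^ (1 - ε) →
      (∀ f : (Fin n → Bool) → Bool, (∀ x y, wt x = wt y → f x = f y) →
        ∃ 𝓕 : Finset (CNF n), (𝓕.card : ℝ) ≤ (2 : ℝ) ^ (C * n / k) ∧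
          (∀ F ∈ 𝓕, (∀ c ∈ F, c.card ≤ k) ∧ F.card ≤ 3 * n * 2 ^ k) ∧
          ∀ x, f x = true ↔ ∃ F ∈ 𝓕, Sat F x) ∧
      (∀ w ≤ n, ∃ F : CNF n, (∀ c ∈ F, c.card ≤ k) ∧ F.card ≤ 3 * n * 2 ^ k ∧
        (∀ x, Sat F x → wt x = w) ∧
        (n.choose w : ℝ) ≤ (2 : ℝ) ^ (C * n / k) * (Nat.card {x : Fin n → Bool // Sat F x} : ℝ))) ∧
    (∃ C : ℝ, ∀ n : ℕ, 1 ≤ n → ∀ f : (Fin n → Bool) → Bool, (∀ x y, wt x = wt y → f x = f y) →
      ∃ 𝓕 : Finset (CNF n), (∑ F ∈ 𝓕, ((F.card : ℝ) + 1)) ≤ (2 : ℝ) ^ (C * Real.sqrt n) ∧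
        (∀ F ∈ 𝓕, ∀ c ∈ F, c.card ≤ Nat.sqrt n) ∧ ∀ x, f x = true ↔ ∃ F ∈ 𝓕, Sat F x) := by
  have hW : ∀ (n : ℕ) (f : (Fin n → Bool) → Bool), (∀ x y, wt x = wt y → f x = f y) →
      ∀ x, (f x = true ↔ wt x ∈ {w : ℕ | ∃ y : Fin n → Bool, wt y = w ∧ f y = true}) := by
    intro n f hf x
    constructor
    · intro h; exact ⟨x, rfl, h⟩
    · rintro ⟨y, hy, hfy⟩
      rw [hf x y hy.symm]; exact hfy
  constructor
  · intro ε hε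
    obtain ⟨t, ht, hkt⟩ := eps_to_t ε hε
    refine ⟨Ct t, ?_⟩
    intro n k hn hk hkn
    refine ⟨?_, ?_⟩
    · intro f hf
      obtain ⟨𝓕, h1, h2, h3⟩ := sym_k n k t ht hk (hkt n k hn hkn)
        {w : ℕ | ∃ y : Fin n → Bool, wt y = w ∧ f y = true}
      exact ⟨𝓕, h1, h2, fun x => (hW n f hf x).trans (h3 x)⟩
    · intro w hw
      exact one_w n k t w ht hk (hkt n k hn hkn) hw
  · obtain ⟨C, hC⟩ := depth_three
    refine ⟨C, ?_⟩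
    intro n hn f hf
    obtain ⟨𝓕, h1, h2, h3⟩ := hC n hn {w : ℕ | ∃ y : Fin n → Bool, wt y = w ∧ f y = true}
    exact ⟨𝓕, h1, h2, fun x => (hW n f hf x).trans (h3 x)⟩

end Pool.Agent.H95.EW
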