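import Mathlib
import Pool.Agent.H95.EW.Main

/-! Arbitrary centres, the enumeration function, and symmetric functions. -/

namespace Pool.Agent.H95.EW

open Finset

theorem wt_xor {n : ℕ} (x α : Fin n → Bool) : wt (fun i => xor (x i) (α i)) = hammingDist x α := by
  classical
  unfold wt hammingDist
  congr 1
  ext i
  simp only [mem_filter, mem_univ, true_and]
  cases x i <;> cases α i <;> simp

theorem xor_cnf {n : ℕ} (F : CNF n) (α : Fin n → Bool) (k : ℕ) (hk : ∀ c ∈ F, c.card ≤ k) :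
    ∃ F' : CNF n, (∀ c ∈ F', c.card ≤ k) ∧ F'.card ≤ F.card ∧
      ∀ x, Sat F' x ↔ Sat F (fun i => xor (x i) (α i)) := by
  classical
  refine ⟨F.image (fun C => C.image (fun l => (l.1, xor l.2 (α l.1)))), ?_, card_image_le, ?_⟩
  · intro c hc
    obtain ⟨C, hC, rfl⟩ := mem_image.1 hc
    exact card_image_le.trans (hk C hC)
  · intro x
    constructor
    · intro h C hC
      obtain ⟨l', hl', hx⟩ := h _ (mem_image.2 ⟨C, hC, rfl⟩)
      obtain ⟨l, hl, rfl⟩ := mem_image.1 hl'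
      refine ⟨l, hl, ?_⟩
      simp only at hx ⊢
      rw [hx]
      cases l.2 <;> cases α l.1 <;> rfl
    · intro h C' hC'
      obtain ⟨C, hC, rfl⟩ := mem_image.1 hC'
      obtain ⟨l, hl, hx⟩ := h C hC
      refine ⟨(l.1, xor l.2 (α l.1)), mem_image.2 ⟨l, hl, rfl⟩, ?_⟩
      simp only at hx ⊢
      rw [← hx]
      cases x l.1 <;> cases α l.1 <;> rfl

theorem centre (n k t w : ℕ) (ht : 1 ≤ t) (hk : 1 ≤ k) (hkn : k ^ (2 * t + 1) ≤ n ^ (2 * t)) (hw : w ≤ n)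
    (α : Fin n → Bool) :
    ∃ F : CNF n, (∀ C ∈ F, C.card ≤ k) ∧ F.card ≤ 3 * n * 2 ^ k ∧
      (∀ x, Sat F x → hammingDist x α = w) ∧
      (n.choose w : ℝ) ≤ (2 : ℝ) ^ ((Ct t : ℝ) * n / k) * (Nat.card {x : Fin n → Bool // Sat F x} : ℝ) := by
  obtain ⟨F, h1, h2, h3, h4⟩ := one_w n k t w ht hk hkn hw
  obtain ⟨F', g1, g2, g3⟩ := xor_cnf F α k h1
  refine ⟨F', g1, g2.trans h2, ?_, ?_⟩
  · intro x hx
    rw [← wt_xor]
    exact h3 _ ((g3 x).1 hx)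
  · have hc : Nat.card {x : Fin n → Bool // Sat F' x} = Nat.card {x : Fin n → Bool // Sat F x} := by
      apply Nat.card_congr
      refine ⟨fun x => ⟨fun i => xor (x.1 i) (α i), (g3 x.1).1 x.2⟩,
        fun x => ⟨fun i => xor (x.1 i) (α i), (g3 _).2 ?_⟩, ?_, ?_⟩
      · have : (fun i => xor (xor (x.1 i) (α i)) (α i)) = x.1 := by funext i; simp
        rw [this]; exact x.2
      · intro x; ext i; simp
      · intro x; ext i; simp
    rw [hc]; exact h4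

theorem le_enumMax (n k t : ℕ) (α : Fin n → Bool) (F : CNF n) (hF : ∀ c ∈ F, c.card ≤ k)
    (h : ∀ x, Sat F x → hammingDist x α = t) :
    Nat.card {x : Fin n → Bool // Sat F x} ≤ enumMax n k t := by
  unfold enumMax
  apply le_csSup
  · refine ⟨Nat.card (Fin n → Bool), ?_⟩
    rintro m ⟨α, F, -, -, rfl⟩
    exact Nat.card_le_card_of_injective (fun x => x.1) Subtype.val_injective
  · refine ⟨α, F, hF, fun x hx => (h x hx).ge, ?_⟩
    apply Nat.card_congr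
    exact Equiv.subtypeEquivRight (fun x => ⟨fun hx => ⟨hx, h x hx⟩, fun hx => hx.1⟩)

theorem half_sum (n : ℕ) : 2 ^ n ≤ 2 * ∑ t ∈ range (n / 2 + 1), n.choose t := by
  have h1 : ∑ t ∈ range (n + 1), n.choose t = 2 ^ n := Nat.sum_range_choose n
  have h2 : ∑ t ∈ range (n + 1), n.choose t
      ≤ ∑ t ∈ range (n + 1), ((if t ≤ n / 2 then n.choose t else 0) + (if n - t ≤ n / 2 then n.choose (n - t) else 0)) := by
    apply sum_le_sum
    intro t ht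
    have ht := mem_range.1 ht
    rw [Nat.choose_symm (by omega)]
    by_cases h : t ≤ n / 2
    · rw [if_pos h]; exact Nat.le_add_right _ _
    · rw [if_pos (show n - t ≤ n / 2 by omega)]; exact Nat.le_add_left _ _
  have h3 : ∑ t ∈ range (n + 1), (if n - t ≤ n / 2 then n.choose (n - t) else 0)
      = ∑ t ∈ range (n + 1), (if t ≤ n / 2 then n.choose t else 0) := by
    have := Finset.sum_range_reflect (fun t => if t ≤ n / 2 then n.choose t else 0) (n + 1)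
    rw [← this]
    apply sum_congr rfl
    intro t ht
    simp
  have h4 : ∑ t ∈ range (n + 1), (if t ≤ n / 2 then n.choose t else 0)
      ≤ ∑ t ∈ range (n / 2 + 1), n.choose t := by
    rw [← sum_filter]
    apply sum_le_sum_of_subset
    intro t ht
    have := (mem_filter.1 ht).2
    exact mem_range.2 (by omega)
  rw [sum_add_distrib, h3] at h2
  omega

theorem enum_sum (n k t : ℕ) (ht : 1 ≤ t) (hn : 1 ≤ n) (hk : 1 ≤ k) (hkn : k ^ (2 * t + 1) ≤ n ^ (2 * t)) :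
    (2 : ℝ) ^ ((1 - ((Ct t : ℝ) + 1) / k) * n) ≤ ∑ s ∈ range (n / 2 + 1), (enumMax n k s : ℝ) := by
  have hk0 : (0 : ℝ) < k := by exact_mod_cast hk
  have hkle : k ≤ n := by
    have : k ^ (2 * t + 1) ≤ n ^ (2 * t + 1) := hkn.trans (Nat.pow_le_pow_right hn (by omega))
    exact (Nat.pow_le_pow_iff_left (by omega)).1 this
  have h1 : ∀ s ∈ range (n / 2 + 1), (n.choose s : ℝ) ≤ (2 : ℝ) ^ ((Ct t : ℝ) * n / k) * (enumMax n k s : ℝ) := by
    intro s hs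
    have hs := mem_range.1 hs
    obtain ⟨F, g1, -, g3, g4⟩ := centre n k t s ht hk hkn (by omega) (fun _ => false)
    refine g4.trans (mul_le_mul_of_nonneg_left ?_ (by positivity))
    exact_mod_cast le_enumMax n k s _ F g1 g3
  have h2 : (2 : ℝ) ^ n ≤ 2 * ∑ s ∈ range (n / 2 + 1), (n.choose s : ℝ) := by exact_mod_cast half_sum n
  have h3 : (2 : ℝ) ^ n ≤ 2 * ((2 : ℝ) ^ ((Ct t : ℝ) * n / k) * ∑ s ∈ range (n / 2 + 1), (enumMax n k s : ℝ)) := by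
    refine h2.trans (mul_le_mul_of_nonneg_left ?_ (by norm_num))
    rw [mul_sum]
    exact sum_le_sum h1
  have hz1 : (1 : ℝ) ≤ (n : ℝ) / k := by
    rw [le_div_iff₀ hk0, one_mul]; exact_mod_cast hkle
  have h5 : (2 : ℝ) ≤ (2 : ℝ) ^ ((n : ℝ) / k) := by
    calc (2 : ℝ) = (2 : ℝ) ^ (1 : ℝ) := by norm_num
      _ ≤ _ := Real.rpow_le_rpow_of_exponent_le (by norm_num) hz1
  set Sg := ∑ s ∈ range (n / 2 + 1), (enumMax n k s : ℝ) with hSg
  have hSg0 : 0 ≤ Sg := sum_nonneg (fun _ _ => Nat.cast_nonneg _)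
  have h6 : (2 : ℝ) ^ n ≤ (2 : ℝ) ^ ((n : ℝ) / k + (Ct t : ℝ) * n / k) * Sg := by
    rw [Real.rpow_add (by norm_num), mul_assoc]
    exact h3.trans (mul_le_mul_of_nonneg_right h5 (by positivity))
  have h7 : (2 : ℝ) ^ ((1 - ((Ct t : ℝ) + 1) / k) * n) * (2 : ℝ) ^ ((n : ℝ) / k + (Ct t : ℝ) * n / k)
      = (2 : ℝ) ^ n := by
    rw [← Real.rpow_add (by norm_num), ← Real.rpow_natCast]
    congr 1
    field_simp
    ring
  have h8 : (0 : ℝ) < (2 : ℝ) ^ ((n : ℝ) / k + (Ct t : ℝ) * n / k) := by positivity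
  rw [← h7, mul_comm] at h6
  exact le_of_mul_le_mul_left h6 h8

theorem symm_wt {n : ℕ} {f : (Fin n → Bool) → Bool} (hf : ∀ (σ : Equiv.Perm (Fin n)) x, f (x ∘ σ) = f x)
    (x y : Fin n → Bool) (h : wt x = wt y) : f x = f y := by
  obtain ⟨σ, rfl⟩ := exists_perm x y h
  exact hf σ y

theorem local_enumeration :
    (∀ ε : ℝ, 0 < ε → ∃ C : ℝ, ∀ n k : ℕ, 1 ≤ n → 1 ≤ k → (k : ℝ) ≤ (n : ℝ) ^ (1 - ε) →
      (∀ (α : Fin n → Bool) (t : ℕ), t ≤ n → ∃ F : CNF n,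
        (∀ c ∈ F, c.card ≤ k) ∧ F.card ≤ 3 * n * 2 ^ k ∧
        (∀ x, Sat F x → hammingDist x α = t) ∧
        (n.choose t : ℝ) ≤ (2 : ℝ) ^ (C * n / k) * (Nat.card {x : Fin n → Bool // Sat F x} : ℝ)) ∧
      (2 : ℝ) ^ ((1 - C / k) * n) ≤ ∑ t ∈ range (n / 2 + 1), (enumMax n k t : ℝ) ∧
      (∀ f : (Fin n → Bool) → Bool, (∀ (σ : Equiv.Perm (Fin n)) x, f (x ∘ σ) = f x) →
        ∃ 𝓕 : Finset (CNF n), (𝓕.card : ℝ) ≤ (2 : ℝ) ^ (C * n / k) ∧
          (∀ F ∈ 𝓕, (∀ c ∈ F, c.card ≤ k) ∧ F.card ≤ 3 * n * 2 ^ k) ∧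
          ∀ x, f x = true ↔ ∃ F ∈ 𝓕, Sat F x)) ∧
    (∃ C : ℝ, ∀ n : ℕ, 1 ≤ n → ∀ f : (Fin n → Bool) → Bool,
      (∀ (σ : Equiv.Perm (Fin n)) x, f (x ∘ σ) = f x) →
      ∃ 𝓕 : Finset (CNF n), (∑ F ∈ 𝓕, ((F.card : ℝ) + 1)) ≤ (2 : ℝ) ^ (C * Real.sqrt n) ∧
        (∀ F ∈ 𝓕, ∀ c ∈ F, c.card ≤ Nat.sqrt n) ∧
        ∀ x, f x = true ↔ ∃ F ∈ 𝓕, Sat F x) := by
  obtain ⟨hA, hB⟩ := main
  constructor
  · intro ε hε
    obtain ⟨t, ht, hkt⟩ := eps_to_t ε hε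
    refine ⟨(Ct t : ℝ) + 1, ?_⟩
    intro n k hn hk hkn
    have hk0 : (0 : ℝ) < k := by exact_mod_cast hk
    have hkn' := hkt n k hn hkn
    have hmono : (2 : ℝ) ^ ((Ct t : ℝ) * n / k) ≤ (2 : ℝ) ^ (((Ct t : ℝ) + 1) * n / k) := by
      apply Real.rpow_le_rpow_of_exponent_le (by norm_num)
      have : (0 : ℝ) ≤ (n : ℝ) / k := by positivity
      rw [mul_div_assoc, mul_div_assoc]
      linarith
    refine ⟨?_, ?_, ?_⟩
    · intro α s hs
      obtain ⟨F, h1, h2, h3, h4⟩ := centre n k t s ht hk hkn' hs α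
      exact ⟨F, h1, h2, h3, h4.trans (mul_le_mul_of_nonneg_right hmono (Nat.cast_nonneg _))⟩
    · exact enum_sum n k t ht hn hk hkn'
    · intro f hf
      obtain ⟨𝓕, h1, h2, h3⟩ := sym_k n k t ht hk hkn'
        {w : ℕ | ∃ y : Fin n → Bool, wt y = w ∧ f y = true}
      refine ⟨𝓕, h1.trans hmono, h2, fun x => ?_⟩
      rw [← h3 x]
      constructor
      · intro h; exact ⟨x, rfl, h⟩
      · rintro ⟨y, hy, hfy⟩
        rw [symm_wt hf x y hy.symm]; exact hfy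
  · obtain ⟨C, hC⟩ := hB
    exact ⟨C, fun n hn f hf => hC n hn f (symm_wt hf)⟩

end Pool.Agent.H95.EW
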